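import Pool.Graph.R_seed8.W691.Ran.Defs

/-!
The Monte Carlo errors `e^ran(𝒫_n)`, `e^ran(n)` and the uniform errors are antitone in the number of points.
-/

set_option autoImplicit false

namespace Pool.Agent.H5.RN

open MeasureTheory Filter Topology Pool.Agent.Helper150.Iid Pool.Agent.W691.Ran
open scoped ENNReal

noncomputable section

theorem probC : IsProbabilityMeasure (volume : Measure UnitAddCircle) := ⟨by simp⟩

instance probT (d : ℕ) : IsProbabilityMeasure (volume : Measure (Tor d)) := by
  haveI := probC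
  exact (inferInstance : IsProbabilityMeasure (volume : Measure (Fin d → UnitAddCircle)))

/-- One more point (which is not used), the origin. -/
def pad {d n : ℕ} (A : RandAlg d n) : RandAlg d (n + 1) where
  Ω := A.Ω
  mΩ := A.mΩ
  μ := A.μ
  prob := A.prob
  P := fun ω => Fin.cons 0 (A.P ω)
  measP := by
    letI := A.mΩ
    refine measurable_pi_lambda _ fun i => ?_
    refine Fin.cases ?_ (fun j => ?_) i
    · simp only [Fin.cons_zero]
      exact measurable_const
    · simp only [Fin.cons_succ]
      exact (measurable_pi_apply j).comp A.measP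
  φ := fun ω v => A.φ ω (fun i => v i.succ)

theorem pad_eval {d n : ℕ} (A : RandAlg d n) (ω : A.Ω) (f : Tor d → ℝ) :
    (pad A).φ ω (fun i => f ((pad A).P ω i)) = A.φ ω (fun i => f (A.P ω i)) := by
  simp only [pad, Fin.cons_succ]

theorem pad_errRan {d n : ℕ} (A : RandAlg d n) (k : ℝ) : errRan (pad A) k = errRan A k := by
  unfold errRan
  simp only [pad_eval]
  rfl

theorem pad_errUnif {d n : ℕ} (A : RandAlg d n) (k : ℝ) : (pad A).errUnif k = A.errUnif k := by
  unfold RandAlg.errUnif RandAlg.wce
  simp only [pad_eval]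
  rfl

theorem ranOpt_anti (d : ℕ) (k : ℝ) : Antitone (ranOpt d k) := by
  refine antitone_nat_of_succ_le fun n => ?_
  refine le_iInf fun A => ?_
  rw [← pad_errRan A k]
  exact iInf_le _ (pad A)

theorem eOpt_anti (d : ℕ) (k : ℝ) : Antitone (eOpt d k) := by
  refine antitone_nat_of_succ_le fun n => ?_
  refine le_iInf fun A => ?_
  rw [← pad_errUnif A k]
  exact iInf_le _ (pad A)

/-- One more independent uniformly distributed point, which is not used. -/
def more {d n : ℕ} (A : RandAlg d n) : RandAlg d (n + 1) where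
  Ω := Tor d × A.Ω
  mΩ := letI := A.mΩ; inferInstance
  μ := letI := A.mΩ; (volume : Measure (Tor d)).prod A.μ
  prob := by
    letI := A.mΩ
    haveI := A.prob
    infer_instance
  P := fun ω => Fin.cons ω.1 (A.P ω.2)
  measP := by
    letI := A.mΩ
    refine measurable_pi_lambda _ fun i => ?_
    refine Fin.cases ?_ (fun j => ?_) i
    · simp only [Fin.cons_zero]
      exact measurable_fst
    · simp only [Fin.cons_succ]
      exact (measurable_pi_apply j).comp (A.measP.comp measurable_snd)
  φ := fun ω v => A.φ ω.2 (fun i => v i.succ)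

theorem more_eval {d n : ℕ} (A : RandAlg d n) (ω : Tor d × A.Ω) (f : Tor d → ℝ) :
    (more A).φ ω (fun i => f ((more A).P ω i)) = A.φ ω.2 (fun i => f (A.P ω.2 i)) := by
  simp only [more, Fin.cons_succ]

theorem upper_snd {d : ℕ} {Ω : Type} [MeasurableSpace Ω] (μ : Measure Ω) [IsProbabilityMeasure μ]
    (F : Ω → ℝ≥0∞) :
    upperInt ((volume : Measure (Tor d)).prod μ) (fun ω => F ω.2) ≤ upperInt μ F := by
  unfold upperInt
  refine le_iInf₂ fun g hg => le_iInf fun hF => ?_
  refine (iInf₂_le (fun ω : Tor d × Ω => g ω.2) (hg.comp measurable_snd)).trans ?_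
  refine (iInf_le _ (show (fun ω : Tor d × Ω => F ω.2) ≤ fun ω => g ω.2 from
    fun ω => hF ω.2)).trans (le_of_eq ?_)
  have h1 : Measure.map Prod.snd ((volume : Measure (Tor d)).prod μ) = μ := by
    rw [Measure.map_snd_prod]
    simp
  conv_rhs => rw [← h1]
  rw [lintegral_map hg measurable_snd]

theorem more_errRan {d n : ℕ} (A : RandAlg d n) (k : ℝ) : errRan (more A) k ≤ errRan A k := by
  unfold errRan
  letI := A.mΩ
  haveI := A.prob
  refine iSup₂_mono fun f _ => ?_
  simp only [more_eval]
  exact upper_snd A.μ (fun o => ENNReal.ofReal |(∫ x, f x) - A.φ o (fun i => f (A.P o i))|)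

theorem more_errUnif {d n : ℕ} (A : RandAlg d n) (k : ℝ) : (more A).errUnif k ≤ A.errUnif k := by
  unfold RandAlg.errUnif
  letI := A.mΩ
  haveI := A.prob
  have h : (more A).wce k = fun ω => A.wce k ω.2 := by
    funext ω
    unfold RandAlg.wce
    simp only [more_eval]
  rw [h]
  exact upper_snd A.μ (A.wce k)

theorem more_iid {d n : ℕ} (A : RandAlg d n) (hA : A.IsIid) : (more A).IsIid := by
  unfold RandAlg.IsIid at hA ⊢
  letI := A.mΩ
  haveI := A.prob
  have h1 := (measurePreserving_piFinSuccAbove (fun _ : Fin (n + 1) => (volume : Measure (Tor d)))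
    0).symm
  have h2 : (more A).P = (MeasurableEquiv.piFinSuccAbove (fun _ : Fin (n + 1) => Tor d) 0).symm ∘
      Prod.map id A.P := by
    funext ω
    simp only [more, Function.comp_apply, MeasurableEquiv.piFinSuccAbove_symm_apply,
      Fin.insertNthEquiv, Equiv.coe_fn_mk, Prod.map, id, Fin.insertNth_zero']
    rfl
  rw [h2]
  change Measure.map _ ((volume : Measure (Tor d)).prod A.μ) = _
  rw [← Measure.map_map (MeasurableEquiv.measurable _) (measurable_id.prodMap A.measP),
    ← Measure.map_prod_map _ _ measurable_id A.measP, Measure.map_id, hA]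
  exact h1.map_eq

theorem ranIid_anti (d : ℕ) (k : ℝ) : Antitone (ranIid d k) := by
  refine antitone_nat_of_succ_le fun n => ?_
  refine le_iInf₂ fun A hA => ?_
  exact (iInf₂_le (more A) (more_iid A hA)).trans (more_errRan A k)

theorem eIid_anti (d : ℕ) (k : ℝ) : Antitone (eIid d k) := by
  refine antitone_nat_of_succ_le fun n => ?_
  refine le_iInf₂ fun A hA => ?_
  exact (iInf₂_le (more A) (more_iid A hA)).trans (more_errUnif A k)

end

end Pool.Agent.H5.RN
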