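import Mathlib

/-!
Parameters of the lower bound for every large number of points `n`.
-/

set_option autoImplicit false

namespace Pool.Agent.H5.RN

open Filter Topology

noncomputable section

/-- `(Q+1)^r ≤ 2 Q^r` if `2 r ≤ Q + 1`. -/
theorem pow_succ_le (Q r : ℕ) (h : 2 * r ≤ Q + 1) : ((Q : ℝ) + 1) ^ r ≤ 2 * (Q : ℝ) ^ r := by
  have h0 : (0 : ℝ) < (Q : ℝ) + 1 := by positivity
  have h1 := one_add_mul_le_pow (a := -(1 / ((Q : ℝ) + 1))) (by
    have : 1 / ((Q : ℝ) + 1) ≤ 1 := by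
      rw [div_le_one h0]
      have : (0 : ℝ) ≤ Q := Nat.cast_nonneg _
      linarith
    linarith) r
  have h2 : 1 + -(1 / ((Q : ℝ) + 1)) = Q / (Q + 1) := by
    field_simp
    ring
  rw [h2, div_pow] at h1
  have h3 : (r : ℝ) * (1 / (Q + 1)) ≤ 1 / 2 := by
    rw [mul_one_div, div_le_iff₀ h0]
    have : (2 : ℝ) * r ≤ Q + 1 := by exact_mod_cast h
    linarith
  have h4 : (1 : ℝ) / 2 ≤ (Q : ℝ) ^ r / (Q + 1) ^ r := by
    have h5 : 1 + (r : ℝ) * -(1 / (Q + 1)) = 1 - r * (1 / (Q + 1)) := by ring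
    rw [h5] at h1
    linarith
  rw [le_div_iff₀ (by positivity)] at h4
  linarith

theorem ev_log (a : ℝ) (ha : 0 < a) : ∀ᶠ x : ℝ in atTop, a * Real.log x ≤ x / 4 := by
  have h := Real.isLittleO_log_id_atTop.bound (show (0 : ℝ) < 1 / (4 * a) by positivity)
  filter_upwards [h, eventually_ge_atTop 1] with x hx hx1
  rw [Real.norm_eq_abs, id, Real.norm_eq_abs, abs_of_nonneg (by linarith : 0 ≤ x),
    abs_of_nonneg (Real.log_nonneg hx1)] at hx
  calc a * Real.log x ≤ a * (1 / (4 * a) * x) := mul_le_mul_of_nonneg_left hx ha.le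
    _ = x / 4 := by field_simp

theorem tendsto_root (b : ℕ) : Tendsto (fun n : ℕ => (Real.log n) ^ (((b + 1 : ℕ) : ℝ)⁻¹)) atTop
    atTop :=
  (tendsto_rpow_atTop (by positivity)).comp
    (Real.tendsto_log_atTop.comp tendsto_natCast_atTop_atTop)

theorem params (b : ℕ) (hb : 2 ≤ b) (s : ℕ) (hs : b + 2 ≤ s) (x₀ : ℝ) : ∀ᶠ n : ℕ in atTop,
    ∃ (x : ℝ) (μ Q R n' : ℕ), x₀ ≤ x ∧ 2 ≤ x ∧ Real.log n = x ^ (b + 1) ∧ 0 < n ∧
      x ^ (b - 1) ≤ μ ∧ (μ : ℝ) ≤ 3 * x ^ (b - 1) ∧ x ^ s ≤ Q ∧ x ^ b ≤ R ∧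
      (R : ℝ) ≤ x ^ (b + 1) ∧ n' = μ * Q ^ (R + 1) ∧ Real.log n' ≤ 2 * x ^ (b + 1) ∧ n ≤ n' ∧
      x ^ (b - 1) * (Q : ℝ) ^ (R + 1) ≤ n := by
  have hev : ∀ᶠ x : ℝ in atTop, x₀ ≤ x ∧ 3 ≤ x ∧ ((s + 1 : ℕ) : ℝ) * Real.log x ≤ x / 4 := by
    filter_upwards [eventually_ge_atTop x₀, eventually_ge_atTop 3,
      ev_log ((s + 1 : ℕ) : ℝ) (by positivity)] with x a b c
    exact ⟨a, b, c⟩
  filter_upwards [(tendsto_root b).eventually hev, eventually_ge_atTop 1] with n hn hn1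
  obtain ⟨x, hx⟩ : ∃ x : ℝ, x = (Real.log n) ^ (((b + 1 : ℕ) : ℝ)⁻¹) := ⟨_, rfl⟩
  rw [← hx] at hn
  obtain ⟨hxx, hx3, hlx⟩ := hn
  have hn1R : (1 : ℝ) ≤ n := by exact_mod_cast hn1
  have hnR : (0 : ℝ) < n := by linarith
  have hL : Real.log n = x ^ (b + 1) := by
    rw [hx, Real.rpow_inv_natCast_pow (Real.log_nonneg hn1R) (by omega)]
  have hx0 : 0 < x := by linarith
  have hx1 : 1 ≤ x := by linarith
  have hpow : ∀ m : ℕ, 1 ≤ x ^ m := fun m => one_le_pow₀ hx1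
  have hlog1 : 1 ≤ Real.log x := by
    rw [Real.le_log_iff_exp_le hx0]
    have := Real.exp_one_lt_d9
    linarith
  have hlog0 : 0 < Real.log x := by linarith
  -- `x'`
  have hb1 : ((b - 1 : ℕ) : ℝ) * Real.log x ≤ x / 4 := by
    refine le_trans (mul_le_mul_of_nonneg_right ?_ hlog0.le) hlx
    exact_mod_cast (by omega : b - 1 ≤ s + 1)
  have hxb1 : x ≤ x ^ (b + 1) := by
    calc x = x ^ 1 := (pow_one x).symm
      _ ≤ x ^ (b + 1) := pow_le_pow_right₀ hx1 (by omega)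
  have hxn : x ^ (b - 1) ≤ n := by
    rw [← Real.log_le_log_iff (by positivity) hnR, Real.log_pow, hL]
    linarith
  obtain ⟨x', hx'⟩ : ∃ x' : ℝ, x' = n / x ^ (b - 1) := ⟨_, rfl⟩
  have hx'1 : 1 ≤ x' := by
    rw [hx', one_le_div (by positivity)]
    exact hxn
  have hx'n : x' ≤ n := by
    rw [hx']
    exact div_le_self hnR.le (hpow _)
  have hy1 : 1 < x ^ (s + 1) := one_lt_pow₀ (by linarith) (by omega)
  obtain ⟨r, hr1, hr2⟩ := exists_nat_pow_near hx'1 hy1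
  -- bounds for `r`
  have hrup : (r : ℝ) ≤ x ^ (b + 1) := by
    have h1 : Real.log ((x ^ (s + 1)) ^ r) ≤ Real.log n :=
      Real.log_le_log (by positivity) (hr1.trans hx'n)
    rw [Real.log_pow, Real.log_pow, hL] at h1
    have h2 : (1 : ℝ) ≤ ((s + 1 : ℕ) : ℝ) * Real.log x := by
      have : (1 : ℝ) ≤ ((s + 1 : ℕ) : ℝ) := by exact_mod_cast (by omega : 1 ≤ s + 1)
      exact one_le_mul_of_one_le_of_one_le this hlog1
    calc (r : ℝ) = r * 1 := (mul_one _).symm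
      _ ≤ r * (((s + 1 : ℕ) : ℝ) * Real.log x) :=
          mul_le_mul_of_nonneg_left h2 (Nat.cast_nonneg _)
      _ ≤ _ := h1
  have hrlow : x ^ b + 1 ≤ r := by
    have h1 : Real.log x' < Real.log ((x ^ (s + 1)) ^ (r + 1)) :=
      Real.log_lt_log (by linarith) hr2
    rw [hx', Real.log_div hnR.ne' (by positivity), Real.log_pow, Real.log_pow, Real.log_pow, hL]
      at h1
    have h2 : (((r + 1 : ℕ) : ℝ)) * (((s + 1 : ℕ) : ℝ) * Real.log x) ≤
        ((r + 1 : ℕ) : ℝ) * (x / 4) := mul_le_mul_of_nonneg_left hlx (Nat.cast_nonneg _)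
    have h3 : x ^ (b + 1) < ((r + 1 : ℕ) : ℝ) * (x / 4) + x / 4 := by linarith
    have h4 : x ^ b < ((r + 1 : ℕ) : ℝ) / 4 + 1 / 4 := by
      have h5 : x ^ b * x < (((r + 1 : ℕ) : ℝ) / 4 + 1 / 4) * x := by
        calc x ^ b * x = x ^ (b + 1) := (pow_succ x b).symm
          _ < ((r + 1 : ℕ) : ℝ) * (x / 4) + x / 4 := h3
          _ = _ := by ring
      exact lt_of_mul_lt_mul_right h5 hx0.le
    have h6 : 3 ≤ x ^ b := by
      calc (3 : ℝ) ≤ x := hx3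
        _ = x ^ 1 := (pow_one x).symm
        _ ≤ x ^ b := pow_le_pow_right₀ hx1 (by omega)
    push_cast at h4
    linarith
  have hr0 : 1 ≤ r := by
    have h1 : (1 : ℝ) ≤ r := by
      have := hpow b
      linarith
    exact_mod_cast h1
  obtain ⟨R, hR⟩ : ∃ R : ℕ, r = R + 1 := ⟨r - 1, by omega⟩
  have hrR : (r : ℝ) = R + 1 := by rw [hR]; push_cast; ring
  -- `Q`
  obtain ⟨z, hz⟩ : ∃ z : ℝ, z = x' ^ ((r : ℝ)⁻¹) := ⟨_, rfl⟩
  have hz0 : 0 ≤ z := by rw [hz]; exact Real.rpow_nonneg (by linarith) _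
  have hzr : z ^ r = x' := by
    rw [hz, Real.rpow_inv_natCast_pow (by linarith) (by omega)]
  have hyz : x ^ (s + 1) ≤ z := by
    rw [← hzr] at hr1
    exact (pow_le_pow_iff_left₀ (by positivity) hz0 (by omega)).1 hr1
  obtain ⟨Q, hQ⟩ : ∃ Q : ℕ, Q = ⌊z⌋₊ := ⟨_, rfl⟩
  have hQz : (Q : ℝ) ≤ z := by rw [hQ]; exact Nat.floor_le hz0
  have hzQ : z < Q + 1 := by rw [hQ]; exact Nat.lt_floor_add_one z
  have hQx : x ^ s ≤ Q := by
    have h1 : x ^ (s + 1) = x ^ s * x := pow_succ _ _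
    have h2 := hpow s
    nlinarith
  have hQ1 : (1 : ℝ) ≤ Q := (hpow _).trans hQx
  have hQr : (Q : ℝ) ^ r ≤ x' := by
    rw [← hzr]
    exact pow_le_pow_left₀ (by positivity) hQz r
  have hQr2 : x' ≤ 2 * (Q : ℝ) ^ r := by
    have h1 : 2 * r ≤ Q + 1 := by
      have h2 : (2 : ℝ) * r ≤ Q + 1 := by
        have h3 : 2 * x ^ (b + 1) ≤ x ^ s := by
          calc 2 * x ^ (b + 1) ≤ x * x ^ (b + 1) := mul_le_mul_of_nonneg_right (by linarith)
                (by positivity)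
            _ = x ^ (b + 2) := by ring
            _ ≤ x ^ s := pow_le_pow_right₀ hx1 (by omega)
        linarith
      exact_mod_cast h2
    rw [← hzr]
    exact (pow_le_pow_left₀ hz0 hzQ.le r).trans (pow_succ_le Q r h1)
  have hQpos : 0 < Q := by exact_mod_cast (lt_of_lt_of_le one_pos hQ1)
  have hQrpos : 0 < Q ^ r := by positivity
  have hQrR : (0 : ℝ) < (Q : ℝ) ^ r := by positivity
  -- `μ`
  obtain ⟨μ, hμ⟩ : ∃ μ : ℕ, μ = n / Q ^ r + 1 := ⟨_, rfl⟩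
  have h1 := Nat.div_add_mod n (Q ^ r)
  have h2 := Nat.mod_lt n hQrpos
  have hμn : n ≤ μ * Q ^ r := by
    rw [hμ, add_mul, one_mul, mul_comm (n / Q ^ r)]
    omega
  have hμn2 : μ * Q ^ r ≤ n + Q ^ r := by
    rw [hμ, add_mul, one_mul, mul_comm (n / Q ^ r)]
    exact Nat.add_le_add_right (Nat.mul_div_le n (Q ^ r)) _
  have hμnR : (n : ℝ) ≤ μ * (Q : ℝ) ^ r := by exact_mod_cast hμn
  have hμnR2 : (μ : ℝ) * (Q : ℝ) ^ r ≤ n + (Q : ℝ) ^ r := by exact_mod_cast hμn2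
  have hnx' : (n : ℝ) = x ^ (b - 1) * x' := by
    rw [hx']
    field_simp
  refine ⟨x, μ, Q, R, μ * Q ^ (R + 1), hxx, by linarith, hL, hn1, ?_, ?_, hQx, ?_, ?_, rfl, ?_, ?_,
    ?_⟩
  · have h3 : x ^ (b - 1) * (Q : ℝ) ^ r ≤ μ * (Q : ℝ) ^ r := by
      refine le_trans ?_ hμnR
      rw [hnx']
      exact mul_le_mul_of_nonneg_left hQr (by positivity)
    exact le_of_mul_le_mul_right h3 hQrR
  · have h3 : (μ : ℝ) * (Q : ℝ) ^ r ≤ (3 * x ^ (b - 1)) * (Q : ℝ) ^ r := by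
      have h4 : (n : ℝ) ≤ x ^ (b - 1) * (2 * (Q : ℝ) ^ r) := by
        rw [hnx']
        exact mul_le_mul_of_nonneg_left hQr2 (by positivity)
      have h5 : (Q : ℝ) ^ r ≤ x ^ (b - 1) * (Q : ℝ) ^ r :=
        le_mul_of_one_le_left hQrR.le (hpow _)
      linarith
    exact le_of_mul_le_mul_right h3 hQrR
  · linarith
  · linarith
  · rw [← hR]
    have h3 : ((μ * Q ^ r : ℕ) : ℝ) ≤ 2 * n := by
      push_cast
      linarith [hQr.trans hx'n]
    have h4 : (0 : ℝ) < ((μ * Q ^ r : ℕ) : ℝ) := by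
      push_cast
      linarith
    calc Real.log ((μ * Q ^ r : ℕ) : ℝ) ≤ Real.log (2 * n) := Real.log_le_log h4 h3
      _ = Real.log 2 + Real.log n := Real.log_mul (by norm_num) hnR.ne'
      _ ≤ 1 + Real.log n := by
          have := Real.log_two_lt_d9
          linarith
      _ ≤ 2 * x ^ (b + 1) := by
          rw [hL]
          have := hpow (b + 1)
          linarith
  · rw [← hR]
    exact hμn
  · rw [← hR, hnx']
    exact mul_le_mul_of_nonneg_left hQr (by positivity)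

end

end Pool.Agent.H5.RN
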