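import Pool.Graph.R_seed8.W691.Ran.Param

/-!
The lower bound of the library for the Monte Carlo error of `n` i.i.d. points (`ran_param`), with all sizes
of its parameters expressed by one real number `x` (of the order of a small power of `log n`).
-/

set_option autoImplicit false

namespace Pool.Agent.H5.RN

open MeasureTheory Filter Topology Pool.Agent.Helper150.Iid Pool.Agent.W691.Ran
open scoped ENNReal

noncomputable section

theorem ev_exp' (a : ℕ) (c : ℝ) (hc : 0 < c) (C ε : ℝ) (hε : 0 < ε) :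
    ∀ᶠ x : ℝ in atTop, C * x ^ a * Real.exp (-(c * x)) ≤ ε := by
  have h1 := Real.tendsto_pow_mul_exp_neg_atTop_nhds_zero a
  have h2 : Tendsto (fun x : ℝ => c * x) atTop atTop := tendsto_id.const_mul_atTop hc
  have h3 := (h1.comp h2).const_mul (C / c ^ a)
  rw [mul_zero] at h3
  have h4 := h3.eventually_le_const hε
  filter_upwards [h4] with t ht
  refine le_trans (le_of_eq ?_) ht
  simp only [Function.comp_apply]
  rw [mul_pow]
  field_simp

theorem ran_gen (hG : S_GRID) (hQu : S_QUANT) (hA : S_AVG) (k : ℝ) (hk : 1 / 2 < k)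
    (hk1 : k < 1) (b : ℕ) (hb : 2 ≤ b) (cL : ℝ) (hcL1 : 1 ≤ cL) :
    ∃ (c x₀ : ℝ), 0 < c ∧ ∀ (x : ℝ) (μ Q R n : ℕ), x₀ ≤ x →
      x ^ (b - 1) ≤ μ → (μ : ℝ) ≤ 3 * x ^ (b - 1) → x ^ (6 * b + 2) ≤ Q →
      x ^ b ≤ R → (R : ℝ) ≤ x ^ (b + 1) → n = μ * Q ^ (R + 1) →
      Real.log n ≤ cL * x ^ (b + 1) →
      ENNReal.ofReal (c / Real.sqrt (x ^ (b + 1) * ((Q : ℝ) ^ (R + 1)) ^ (2 * k) *
        (Q : ℝ) ^ (R + 1))) ≤ ranIid 2 k n := by
  have hk0 : 0 ≤ k := by linarith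
  obtain ⟨κ, C, hκ0, hκ1, hC, H⟩ := ran_param hG hQu hA k hk hk1
  obtain ⟨s, hs⟩ : ∃ s : ℕ, s = 6 * b + 2 := ⟨_, rfl⟩
  obtain ⟨cΛ, hcΛ⟩ : ∃ cΛ : ℝ, cΛ = 2 * cL + 4 * b + 3 := ⟨_, rfl⟩
  have hb0 : (0 : ℝ) ≤ b := Nat.cast_nonneg _
  have hcΛ1 : 1 ≤ cΛ := by rw [hcΛ]; linarith
  obtain ⟨C3, hC3⟩ : ∃ C3 : ℝ, C3 = 4 * (C * (2 + 108 * (2 + C) * cΛ ^ 2) + 1) := ⟨_, rfl⟩
  have hC3p : 0 < C3 := by rw [hC3]; positivity
  have hev : ∀ᶠ x : ℝ in atTop, 32 ≤ x ∧ 8 * cΛ ≤ x ∧ cL + 1 ≤ x ∧ 8 * (2 + C) ≤ x ∧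
      2 * x ^ (b + 1) * Real.exp (-(1 * x)) ≤ 1 / 6 ∧
      2 * x ^ (2 * s) * Real.exp (-(κ / 3072 * x)) ≤ 1 / 6 := by
    filter_upwards [eventually_ge_atTop 32, eventually_ge_atTop (8 * cΛ),
      eventually_ge_atTop (cL + 1), eventually_ge_atTop (8 * (2 + C)),
      ev_exp' (b + 1) 1 one_pos 2 (1 / 6) (by norm_num),
      ev_exp' (2 * s) (κ / 3072) (by positivity) 2 (1 / 6) (by norm_num)] with x e1 e2 e3 e4 e5 e6
    exact ⟨e1, e2, e3, e4, e5, e6⟩
  obtain ⟨x₀, hx₀⟩ := eventually_atTop.1 hev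
  refine ⟨1 / (128 * Real.sqrt C3), x₀, by positivity, ?_⟩
  intro x μ Q R n hx hμ1 hμ2 hQ hR1 hR2 hn hlog
  rw [← hs] at hQ
  obtain ⟨e1, e2, e3, e4, e5, e6⟩ := hx₀ x hx
  have hX1 : 1 ≤ x := by linarith
  have hX0 : 0 < x := by linarith
  have hpowX : ∀ m : ℕ, 1 ≤ x ^ m := fun m => one_le_pow₀ hX1
  have hQX : (1 : ℝ) ≤ Q := (hpowX s).trans hQ
  have hμX : (1 : ℝ) ≤ μ := (hpowX (b - 1)).trans hμ1
  have hQpos : 0 < Q := by exact_mod_cast (lt_of_lt_of_le one_pos hQX)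
  have hμpos : 0 < μ := by exact_mod_cast (lt_of_lt_of_le one_pos hμX)
  have hRX : (1 : ℝ) ≤ R := (hpowX b).trans hR1
  have hRpos : 1 ≤ R := by exact_mod_cast hRX
  have hnpos : 0 < n := by rw [hn]; positivity
  have hnR : (0:ℝ) < n := by exact_mod_cast hnpos
  obtain ⟨N, hN⟩ : ∃ N : ℝ, N = (Q : ℝ) ^ (R + 1) := ⟨_, rfl⟩
  have hN1' : (1 : ℝ) ≤ N := by rw [hN]; exact one_le_pow₀ hQX
  have hNR : (0 : ℝ) < N := by linarith
  have hnN : (n : ℝ) = μ * N := by rw [hn, hN]; push_cast; ring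
  -- size of Λ
  have hY1 : 1 ≤ (n : ℝ) * x ^ (2 * b) := by
    have h1 : (1 : ℝ) ≤ n := by exact_mod_cast hnpos
    exact one_le_mul_of_one_le_of_one_le h1 (hpowX _)
  obtain ⟨Λ', hΛ1, hΛ2⟩ := exists_nat_pow_near hY1 (by norm_num : (1 : ℝ) < 2)
  obtain ⟨Λ, hΛ⟩ : ∃ Λ : ℕ, Λ = Λ' + 1 := ⟨_, rfl⟩
  rw [← hΛ] at hΛ2
  have h2ΛX : (n : ℝ) * x ^ (2 * b) ≤ (2:ℝ) ^ Λ := hΛ2.le
  have h2ΛY : (2:ℝ) ^ Λ ≤ 2 * (n * x ^ (2 * b)) := by
    rw [hΛ, pow_succ]
    linarith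
  have hxb : x ≤ x ^ (b + 1) := by
    calc x = x ^ 1 := (pow_one x).symm
      _ ≤ x ^ (b + 1) := pow_le_pow_right₀ hX1 (by omega)
  have hΛle : (Λ : ℝ) + 1 ≤ cΛ * x ^ (b + 1) := by
    have h1 : (Λ : ℝ) * Real.log 2 ≤ Real.log (2 * (n * x ^ (2 * b))) := by
      rw [← Real.log_pow]
      exact Real.log_le_log (by positivity) h2ΛY
    have h2 : Real.log (2 * (n * x ^ (2 * b))) =
        Real.log 2 + (Real.log n + 2 * b * Real.log x) := by
      rw [Real.log_mul (by norm_num) (by positivity), Real.log_mul hnR.ne' (by positivity),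
        Real.log_pow]
      push_cast
      ring
    have h3 : Real.log x ≤ x := (Real.log_le_sub_one_of_pos hX0).trans (by linarith)
    have h4 : 2 * b * Real.log x ≤ 2 * b * x ^ (b + 1) :=
      mul_le_mul_of_nonneg_left (h3.trans hxb) (by positivity)
    have h5 : 1 / 2 ≤ Real.log 2 := by
      have := Real.log_two_gt_d9
      linarith
    have h6 : Real.log 2 ≤ 1 := by
      have := Real.log_two_lt_d9
      linarith
    have h7 : (Λ : ℝ) * (1 / 2) ≤ (Λ : ℝ) * Real.log 2 :=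
      mul_le_mul_of_nonneg_left h5 (Nat.cast_nonneg _)
    have h8 := hpowX (b + 1)
    rw [hcΛ]
    nlinarith
  -- the conditions
  have hs1 : 1 ≤ s := by omega
  have c0 : 32 ≤ Q := by
    have : (32:ℝ) ≤ Q := by
      calc (32:ℝ) ≤ x := e1
        _ = x ^ 1 := by ring
        _ ≤ x ^ s := pow_le_pow_right₀ hX1 hs1
        _ ≤ Q := hQ
    exact_mod_cast this
  have c1 : 8 * n * (Λ + 1) ≤ 2 ^ Λ := by
    have h1 : (8:ℝ) * n * (Λ + 1) ≤ (2:ℝ) ^ Λ := by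
      refine le_trans ?_ h2ΛX
      have h2 : 8 * ((Λ:ℝ) + 1) ≤ x ^ (2 * b) := by
        calc 8 * ((Λ:ℝ) + 1) ≤ 8 * (cΛ * x ^ (b + 1)) := by linarith
          _ = (8 * cΛ) * x ^ (b + 1) := by ring
          _ ≤ x * x ^ (b + 1) := mul_le_mul_of_nonneg_right e2 (by positivity)
          _ = x ^ (b + 2) := by ring
          _ ≤ x ^ (2 * b) := pow_le_pow_right₀ hX1 (by omega)
      calc (8:ℝ) * n * (Λ + 1) = n * (8 * ((Λ:ℝ) + 1)) := by ring
        _ ≤ n * x ^ (2 * b) := mul_le_mul_of_nonneg_left h2 hnR.le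
    exact_mod_cast h1
  have c2 : 2 * (R:ℝ) * (Q : ℝ) ^ R * Real.exp (-(μ * Q)) ≤ 1 / 6 := by
    have h1 : (Q : ℝ) ^ R ≤ Real.exp (cL * x ^ (b + 1)) := by
      calc (Q : ℝ) ^ R ≤ (Q : ℝ) ^ (R + 1) := pow_le_pow_right₀ hQX (by omega)
        _ = 1 * (Q : ℝ) ^ (R + 1) := (one_mul _).symm
        _ ≤ μ * (Q : ℝ) ^ (R + 1) := mul_le_mul_of_nonneg_right hμX (by positivity)
        _ = n := by rw [hn]; push_cast; ring
        _ = Real.exp (Real.log n) := (Real.exp_log hnR).symm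
        _ ≤ _ := Real.exp_le_exp.2 hlog
    have h3 : x ^ (b + 2) ≤ (μ:ℝ) * Q := by
      calc x ^ (b + 2) ≤ x ^ ((b - 1) + s) := pow_le_pow_right₀ hX1 (by omega)
        _ = x ^ (b - 1) * x ^ s := pow_add _ _ _
        _ ≤ μ * Q := mul_le_mul hμ1 hQ (by positivity) (by positivity)
    have h4 : cL * x ^ (b + 1) - μ * Q ≤ -(1 * x) := by
      have h5 : cL * x ^ (b + 1) - x ^ (b + 2) = -((x - cL) * x ^ (b + 1)) := by ring
      have h7 : x ≤ (x - cL) * x ^ (b + 1) := by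
        calc x ≤ x ^ (b + 1) := hxb
          _ = 1 * x ^ (b + 1) := by ring
          _ ≤ (x - cL) * x ^ (b + 1) :=
            mul_le_mul_of_nonneg_right (by linarith) (by positivity)
      linarith
    calc 2 * (R:ℝ) * (Q : ℝ) ^ R * Real.exp (-(μ * Q))
        ≤ 2 * x ^ (b + 1) * Real.exp (cL * x ^ (b + 1)) * Real.exp (-(μ * Q)) := by
          refine mul_le_mul_of_nonneg_right ?_ (Real.exp_pos _).le
          exact mul_le_mul (by linarith) h1 (by positivity) (by positivity)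
      _ = 2 * x ^ (b + 1) * Real.exp (cL * x ^ (b + 1) - μ * Q) := by
          rw [mul_assoc, ← Real.exp_add]
          ring_nf
      _ ≤ 2 * x ^ (b + 1) * Real.exp (-(1 * x)) := by
          refine mul_le_mul_of_nonneg_left (Real.exp_le_exp.2 h4) (by positivity)
      _ ≤ 1 / 6 := e5
  obtain ⟨τ, hτ⟩ : ∃ τ : ℝ, τ = n / x ^ (2 * s) := ⟨_, rfl⟩
  have hτ0 : 0 < τ := by rw [hτ]; positivity
  have hμ0 : (0 : ℝ) < μ := by linarith
  have c3 : (1 - κ / (1024 * μ)) ^ R * (2 * n) / τ ≤ 1 / 6 := by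
    have h1 : (1 - κ / (1024 * μ)) ^ R ≤ Real.exp (-(κ / 3072 * x)) := by
      have h2 : (1 - κ / (1024 * μ)) ≤ Real.exp (-(κ / (1024 * μ))) := by
        have := Real.add_one_le_exp (-(κ / (1024 * μ)))
        linarith
      have h3 : 0 ≤ 1 - κ / (1024 * μ) := by
        have : κ / (1024 * μ) ≤ 1 := by
          rw [div_le_one (by positivity)]
          nlinarith
        linarith
      calc (1 - κ / (1024 * μ)) ^ R ≤ (Real.exp (-(κ / (1024 * μ)))) ^ R :=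
            pow_le_pow_left₀ h3 h2 _
        _ = Real.exp (-(κ / 1024 * (R / μ))) := by
            rw [← Real.exp_nat_mul]
            congr 1
            field_simp
        _ ≤ Real.exp (-(κ / 3072 * x)) := by
            refine Real.exp_le_exp.2 ?_
            have h4 : x / 3 ≤ R / μ := by
              rw [div_le_div_iff₀ (by norm_num) hμ0]
              calc x * μ ≤ x * (3 * x ^ (b - 1)) := mul_le_mul_of_nonneg_left hμ2 hX0.le
                _ = 3 * x ^ ((b - 1) + 1) := by ring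
                _ = 3 * x ^ b := by rw [Nat.sub_add_cancel (by omega)]
                _ ≤ R * 3 := by linarith
            have h5 : κ / 1024 * (x / 3) ≤ κ / 1024 * (R / μ) :=
              mul_le_mul_of_nonneg_left h4 (by positivity)
            have h6 : κ / 1024 * (x / 3) = κ / 3072 * x := by ring
            linarith
    have h5 : (1 - κ / (1024 * μ)) ^ R * (2 * n) / τ =
        2 * x ^ (2 * s) * (1 - κ / (1024 * μ)) ^ R := by
      rw [hτ]
      field_simp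
    rw [h5]
    calc 2 * x ^ (2 * s) * (1 - κ / (1024 * μ)) ^ R ≤
        2 * x ^ (2 * s) * Real.exp (-(κ / 3072 * x)) :=
          mul_le_mul_of_nonneg_left h1 (by positivity)
      _ ≤ 1 / 6 := e6
  have c4 : (3 * n / 2 ^ (Λ + 1) : ℝ) ≤ 1 / 6 := by
    rw [pow_succ]
    have h1 : (9:ℝ) ≤ x ^ (2 * b) := by
      calc (9:ℝ) ≤ x := by linarith
        _ = x ^ 1 := by ring
        _ ≤ x ^ (2 * b) := pow_le_pow_right₀ hX1 (by omega)
    rw [div_le_iff₀ (by positivity)]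
    nlinarith
  obtain ⟨S, hS⟩ : ∃ S : ℝ, S = (2 + C) * (n * (x ^ (2 * (b + 1)) / x ^ (2 * s))) := ⟨_, rfl⟩
  have c5 : 2 * τ + C * (R / Q) ^ 2 * n ≤ S := by
    rw [hS, hτ]
    have h1 : (n:ℝ) / x ^ (2 * s) ≤ n * (x ^ (2 * (b + 1)) / x ^ (2 * s)) := by
      rw [← mul_div_assoc]
      refine div_le_div_of_nonneg_right ?_ (by positivity)
      calc (n:ℝ) = n * 1 := by ring
        _ ≤ n * x ^ (2 * (b + 1)) := mul_le_mul_of_nonneg_left (hpowX _) hnR.le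
    have h2 : C * ((R : ℝ) / Q) ^ 2 * n ≤ C * (n * (x ^ (2 * (b + 1)) / x ^ (2 * s))) := by
      have h3 : ((R : ℝ) / Q) ^ 2 ≤ x ^ (2 * (b + 1)) / x ^ (2 * s) := by
        have h4 : (R : ℝ) / Q ≤ x ^ (b + 1) / x ^ s :=
          div_le_div₀ (by positivity) hR2 (by positivity) hQ
        calc ((R : ℝ) / Q) ^ 2 ≤ (x ^ (b + 1) / x ^ s) ^ 2 :=
              pow_le_pow_left₀ (by positivity) h4 2
          _ = x ^ (2 * (b + 1)) / x ^ (2 * s) := by
              rw [div_pow, ← pow_mul, ← pow_mul, mul_comm (b + 1) 2, mul_comm s 2]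
      calc C * ((R : ℝ) / Q) ^ 2 * n = C * n * ((R : ℝ) / Q) ^ 2 := by ring
        _ ≤ C * n * (x ^ (2 * (b + 1)) / x ^ (2 * s)) :=
            mul_le_mul_of_nonneg_left h3 (by positivity)
        _ = _ := by ring
    linarith
  have hS0 : 0 ≤ S := by rw [hS]; positivity
  have hXs : x ^ (2 * (b + 1)) / x ^ (2 * s) ≤ 1 := by
    rw [div_le_one (by positivity)]
    exact pow_le_pow_right₀ hX1 (by omega)
  have c6 : 1 / 2 ^ Λ * Real.sqrt (n * S) ≤ 1 / 8 := by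
    have h1 : Real.sqrt (n * S) ≤ (2 + C) * n := by
      rw [Real.sqrt_le_left (by positivity)]
      have h2 : S ≤ (2 + C) * n := by
        rw [hS]
        refine mul_le_mul_of_nonneg_left ?_ (by positivity)
        calc (n:ℝ) * (x ^ (2 * (b + 1)) / x ^ (2 * s)) ≤ n * 1 :=
              mul_le_mul_of_nonneg_left hXs hnR.le
          _ = n := by ring
      calc (n:ℝ) * S ≤ n * ((2 + C) * n) := mul_le_mul_of_nonneg_left h2 hnR.le
        _ = 1 * ((2 + C) * n ^ 2) := by ring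
        _ ≤ (2 + C) * ((2 + C) * n ^ 2) :=
            mul_le_mul_of_nonneg_right (by linarith) (by positivity)
        _ = ((2 + C) * n) ^ 2 := by ring
    have h2 : (1 : ℝ) / 2 ^ Λ ≤ 1 / (n * x ^ (2 * b)) :=
      one_div_le_one_div_of_le (by positivity) h2ΛX
    calc 1 / 2 ^ Λ * Real.sqrt (n * S) ≤ 1 / (n * x ^ (2 * b)) * ((2 + C) * n) :=
          mul_le_mul h2 h1 (Real.sqrt_nonneg _) (by positivity)
      _ = (2 + C) / x ^ (2 * b) := by
          field_simp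
      _ ≤ 1 / 8 := by
          rw [div_le_iff₀ (by positivity)]
          have h3 : x ≤ x ^ (2 * b) := by
            calc x = x ^ 1 := by ring
              _ ≤ x ^ (2 * b) := pow_le_pow_right₀ hX1 (by omega)
          linarith
  -- the norm
  obtain ⟨P, hP⟩ : ∃ P : ℝ, P = N ^ (2 * k) := ⟨_, rfl⟩
  have hP1 : (1:ℝ) ≤ P := by rw [hP]; exact Real.one_le_rpow hN1' (by linarith)
  have hP0 : 0 ≤ P := by linarith
  obtain ⟨W, hW⟩ : ∃ W : ℝ, W = x ^ (b + 1) * P * N := ⟨_, rfl⟩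
  have hXb1 : 1 ≤ x ^ (b + 1) := hpowX _
  have hW1 : 1 ≤ W := by
    rw [hW]
    exact one_le_mul_of_one_le_of_one_le (one_le_mul_of_one_le_of_one_le hXb1 hP1) hN1'
  obtain ⟨Y, hY⟩ : ∃ Y : ℝ, Y = 6 * x ^ (3 * b - 1) := ⟨_, rfl⟩
  have hY1 : 1 ≤ Y := by rw [hY]; have := hpowX (3 * b - 1); linarith
  have hY0 : 0 ≤ Y := by linarith
  have hnX : (n : ℝ) ≤ 3 * x ^ (b - 1) * N := by
    rw [hnN]
    exact mul_le_mul_of_nonneg_right hμ2 hNR.le
  have key : ((Λ : ℝ) + 1) ^ 2 * ((2 : ℝ) ^ Λ) ^ (2 * k) * S ≤ 108 * (2 + C) * cΛ ^ 2 * W := by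
    have h2 : ((2 : ℝ) ^ Λ) ^ (2 * k) ≤ P * Y ^ 2 := by
      have h3 : (2 : ℝ) ^ Λ ≤ N * Y := by
        refine h2ΛY.trans ?_
        rw [hY]
        calc 2 * ((n : ℝ) * x ^ (2 * b)) ≤ 2 * ((3 * x ^ (b - 1) * N) * x ^ (2 * b)) := by
              gcongr
          _ = N * (6 * (x ^ (b - 1) * x ^ (2 * b))) := by ring
          _ = N * (6 * x ^ (3 * b - 1)) := by
              rw [← pow_add, show b - 1 + 2 * b = 3 * b - 1 by omega]
      calc ((2 : ℝ) ^ Λ) ^ (2 * k) ≤ (N * Y) ^ (2 * k) :=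
            Real.rpow_le_rpow (by positivity) h3 (by linarith)
        _ = P * Y ^ (2 * k) := by rw [Real.mul_rpow hNR.le hY0, hP]
        _ ≤ P * Y ^ (2 : ℝ) := by
            refine mul_le_mul_of_nonneg_left ?_ hP0
            exact Real.rpow_le_rpow_of_exponent_le hY1 (by linarith)
        _ = P * Y ^ 2 := by rw [← Real.rpow_natCast]; norm_num
    have hSX : S ≤ (2 + C) * ((3 * x ^ (b - 1) * N) * (x ^ (2 * (b + 1)) / x ^ (2 * s))) := by
      rw [hS]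
      gcongr
    have hΛ2' : ((Λ : ℝ) + 1) ^ 2 ≤ cΛ ^ 2 * x ^ (2 * (b + 1)) := by
      have h7 := pow_le_pow_left₀ (by positivity) hΛle 2
      rw [mul_pow, ← pow_mul, mul_comm (b + 1) 2] at h7
      exact h7
    have hexp : x ^ (2 * (b + 1)) * (x ^ (3 * b - 1)) ^ 2 * (x ^ (b - 1) * x ^ (2 * (b + 1))) ≤
        x ^ (2 * s) := by
      rw [← pow_mul, ← pow_add, ← pow_add, ← pow_add]
      exact pow_le_pow_right₀ hX1 (by omega)
    calc ((Λ : ℝ) + 1) ^ 2 * ((2 : ℝ) ^ Λ) ^ (2 * k) * S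
        ≤ (cΛ ^ 2 * x ^ (2 * (b + 1))) * (P * Y ^ 2) *
          ((2 + C) * ((3 * x ^ (b - 1) * N) * (x ^ (2 * (b + 1)) / x ^ (2 * s)))) := by
          refine mul_le_mul ?_ hSX hS0 (by positivity)
          exact mul_le_mul hΛ2' h2 (by positivity) (by positivity)
      _ = 108 * (2 + C) * cΛ ^ 2 * (P * N) *
          ((x ^ (2 * (b + 1)) * (x ^ (3 * b - 1)) ^ 2 * (x ^ (b - 1) * x ^ (2 * (b + 1)))) /
            x ^ (2 * s)) := by
          rw [hY]
          ring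
      _ ≤ 108 * (2 + C) * cΛ ^ 2 * (P * N) * 1 := by
          refine mul_le_mul_of_nonneg_left ?_ (by positivity)
          rw [div_le_one (by positivity)]
          exact hexp
      _ ≤ 108 * (2 + C) * cΛ ^ 2 * W := by
          rw [mul_one]
          refine mul_le_mul_of_nonneg_left ?_ (by positivity)
          rw [hW]
          have h8 : 0 ≤ P * N := by positivity
          calc P * N = 1 * (P * N) := by ring
            _ ≤ x ^ (b + 1) * (P * N) := mul_le_mul_of_nonneg_right hXb1 h8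
            _ = x ^ (b + 1) * P * N := by ring
  obtain ⟨A, hA1, hA2⟩ := ex_four (C * (2 + 108 * (2 + C) * cΛ ^ 2) * W) (by positivity)
  have c7 : C * (1 + R * ((Q : ℝ) ^ (R + 1)) ^ (2 * k) * (Q : ℝ) ^ (R + 1) +
      ((Λ : ℝ) + 1) ^ 2 * ((2 : ℝ) ^ Λ) ^ (2 * k) * S) * (1 / 2 ^ A) ^ 2 ≤ 1 := by
    have h4 : ((1 : ℝ) / 2 ^ A) ^ 2 = 1 / 4 ^ A := by
      rw [div_pow, one_pow, ← pow_mul, mul_comm, pow_mul]
      norm_num
    rw [h4, mul_one_div, div_le_one (by positivity)]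
    refine le_trans ?_ hA1
    have e0 : C * (2 + 108 * (2 + C) * cΛ ^ 2) * W = C * ((2 + 108 * (2 + C) * cΛ ^ 2) * W) := by
      ring
    rw [← hN, ← hP, e0]
    refine mul_le_mul_of_nonneg_left ?_ hC.le
    have h5 : (2 + 108 * (2 + C) * cΛ ^ 2) * W = W + W + 108 * (2 + C) * cΛ ^ 2 * W := by ring
    have h6 : (R : ℝ) * P * N ≤ W := by
      rw [hW]
      gcongr
    rw [h5]
    linarith
  have hmain := H n Q hQpos R μ Λ τ c0 hμpos hτ0 hn c1 c2 c3 c4 hRpos S c5 c6 A c7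
  refine le_trans (ENNReal.ofReal_le_ofReal ?_) hmain
  rw [← hN, ← hP, ← hW]
  have h5 : (4 : ℝ) ^ A ≤ C3 * W := by
    refine hA2.trans ?_
    rw [hC3]
    have : 4 * (C * (2 + 108 * (2 + C) * cΛ ^ 2) + 1) * W =
      4 * (C * (2 + 108 * (2 + C) * cΛ ^ 2) * W) + 4 * W := by ring
    rw [this]
    linarith
  have h6 : (2 : ℝ) ^ A ≤ Real.sqrt C3 * Real.sqrt W := by
    rw [← Real.sqrt_mul hC3p.le]
    refine Real.le_sqrt_of_sq_le ?_
    rw [← pow_mul, mul_comm, pow_mul]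
    norm_num
    exact h5
  have h7 : 0 < Real.sqrt C3 := Real.sqrt_pos.2 hC3p
  have h8 : 0 < Real.sqrt W := Real.sqrt_pos.2 (by linarith)
  have e1 : 1 / (128 * Real.sqrt C3) / Real.sqrt W = 1 / (Real.sqrt C3 * Real.sqrt W) / 128 := by
    field_simp
  rw [e1]
  refine div_le_div_of_nonneg_right ?_ (by norm_num)
  exact one_div_le_one_div_of_le (by positivity) h6

end

end Pool.Agent.H5.RN
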