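import Pool.Agent.H5.RN.Anti

/-!
The errors of `n` i.i.d. points do not decrease if the dimension grows: functions of the last `d` of `d + 1`
variables.
-/

set_option autoImplicit false

namespace Pool.Agent.H5.RN

open MeasureTheory Filter Topology Pool.Agent.Helper150.Iid Pool.Agent.W691.Ran
open scoped ENNReal

noncomputable section

/-- Forget the first coordinate. -/
def tl {d : ℕ} (x : Tor (d + 1)) : Tor d := fun i => x i.succ

theorem tl_cont {d : ℕ} : Continuous (tl : Tor (d + 1) → Tor d) :=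
  continuous_pi fun i => continuous_apply i.succ

theorem tl_mp (d : ℕ) : MeasurePreserving (tl : Tor (d + 1) → Tor d) volume volume := by
  haveI := probC
  have h1 := volume_preserving_piFinSuccAbove (fun _ : Fin (d + 1) => UnitAddCircle) 0
  have h2 : MeasurePreserving (Prod.snd : UnitAddCircle × (Fin d → UnitAddCircle) → _)
      (volume.prod volume) volume := measurePreserving_snd
  have h3 := h2.comp h1
  have h4 : (tl : Tor (d + 1) → Tor d) =
      Prod.snd ∘ (MeasurableEquiv.piFinSuccAbove (fun _ : Fin (d + 1) => UnitAddCircle) 0) := by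
    funext x
    rfl
  rw [h4]
  exact h3

theorem int_fourier {n : ℤ} (hn : n ≠ 0) : ∫ y : UnitAddCircle, (fourier n y : ℂ) = 0 :=
  integral_eq_zero_of_add_right_eq_neg (fun y => fourier_add_half_inv_index hn one_pos y)

theorem fc_lift {d : ℕ} (f : Tor d → ℝ) (h : Fin (d + 1) → ℤ) :
    fc (fun x => f (tl x)) h = (∫ y : UnitAddCircle, (fourier (-h 0) y : ℂ)) *
      fc f (fun i => h i.succ) := by
  haveI := probC
  unfold fc
  have h1 := volume_preserving_piFinSuccAbove (fun _ : Fin (d + 1) => UnitAddCircle) 0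
  rw [← integral_prod_mul]
  have key := h1.integral_comp (MeasurableEquiv.measurableEmbedding _)
    (fun z : UnitAddCircle × (Fin d → UnitAddCircle) => (fourier (-h 0) z.1 : ℂ) *
      ((∏ j, (fourier (-(h (Fin.succ j))) (z.2 j) : ℂ)) * ((f z.2 : ℝ) : ℂ)))
  refine Eq.trans ?_ key
  refine integral_congr_ae (Eventually.of_forall fun x => ?_)
  simp only [Fin.prod_univ_succ]
  rw [mul_assoc]
  rfl

theorem fc_lift_zero {d : ℕ} (f : Tor d → ℝ) (h : Fin (d + 1) → ℤ) (h0 : h 0 ≠ 0) :
    fc (fun x => f (tl x)) h = 0 := by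
  rw [fc_lift, int_fourier (neg_ne_zero.2 h0), zero_mul]

theorem fc_lift_cons {d : ℕ} (f : Tor d → ℝ) (h : Fin d → ℤ) :
    fc (fun x => f (tl x)) (Fin.cons 0 h : Fin (d + 1) → ℤ) = fc f h := by
  haveI := probC
  rw [fc_lift]
  simp [Fin.cons_succ]

theorem wt_cons {d : ℕ} (k : ℝ) (h : Fin d → ℤ) :
    wt k (Fin.cons 0 h : Fin (d + 1) → ℤ) = wt k h := by
  unfold wt
  rw [Fin.prod_univ_succ]
  simp

theorem lift_ball {d : ℕ} {k : ℝ} {f : Tor d → ℝ} (hf : f ∈ ball d k) :
    (fun x => f (tl x)) ∈ ball (d + 1) k := by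
  obtain ⟨h1, h2, h3⟩ := hf
  have hinj : Function.Injective (fun h : Fin d → ℤ => (Fin.cons 0 h : Fin (d + 1) → ℤ)) :=
    fun a b hab => (Fin.cons_inj.1 hab).2
  have hcomp : ((fun h : Fin (d + 1) → ℤ => ‖fc (fun x => f (tl x)) h‖ ^ 2 * wt k h) ∘
      fun h : Fin d → ℤ => (Fin.cons 0 h : Fin (d + 1) → ℤ)) = fun h => ‖fc f h‖ ^ 2 * wt k h := by
    funext h
    simp only [Function.comp_apply, fc_lift_cons, wt_cons]
  have hz : ∀ h : Fin (d + 1) → ℤ,
      h ∉ Set.range (fun h : Fin d → ℤ => (Fin.cons 0 h : Fin (d + 1) → ℤ)) →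
      ‖fc (fun x => f (tl x)) h‖ ^ 2 * wt k h = 0 := by
    intro h hh
    have h0 : h 0 ≠ 0 := by
      intro h0
      refine hh ⟨fun i => h i.succ, ?_⟩
      funext i
      refine Fin.cases ?_ (fun j => ?_) i
      · simp [h0]
      · simp
    rw [fc_lift_zero f h h0]
    simp
  refine ⟨h1.comp tl_cont, ?_, ?_⟩
  · rw [← hinj.summable_iff hz, hcomp]
    exact h2
  · have hs : Function.support (fun h : Fin (d + 1) → ℤ =>
        ‖fc (fun x => f (tl x)) h‖ ^ 2 * wt k h) ⊆
        Set.range (fun h : Fin d → ℤ => (Fin.cons 0 h : Fin (d + 1) → ℤ)) := by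
      intro h hh
      by_contra hc
      exact hh (hz h hc)
    rw [← hinj.tsum_eq hs]
    have h4 : (fun h : Fin d → ℤ => ‖fc (fun x => f (tl x))
        (Fin.cons 0 h : Fin (d + 1) → ℤ)‖ ^ 2 * wt k (Fin.cons 0 h : Fin (d + 1) → ℤ)) =
        fun h => ‖fc f h‖ ^ 2 * wt k h := hcomp
    rw [h4]
    exact h3

theorem lift_int {d : ℕ} {f : Tor d → ℝ} (hf : Continuous f) :
    ∫ x : Tor (d + 1), f (tl x) = ∫ x, f x := by
  have h := (tl_mp d).map_eq
  rw [← integral_map (tl_mp d).aemeasurable (by rw [h]; exact hf.aestronglyMeasurable), h]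

/-- The algorithm for functions of `d` variables. -/
def low {d n : ℕ} (A : RandAlg (d + 1) n) : RandAlg d n where
  Ω := A.Ω
  mΩ := A.mΩ
  μ := A.μ
  prob := A.prob
  P := fun ω i => tl (A.P ω i)
  measP := by
    letI := A.mΩ
    exact measurable_pi_lambda _ fun i =>
      tl_cont.measurable.comp ((measurable_pi_apply i).comp A.measP)
  φ := A.φ

theorem low_iid {d n : ℕ} (A : RandAlg (d + 1) n) (hA : A.IsIid) : (low A).IsIid := by
  unfold RandAlg.IsIid at hA ⊢
  letI := A.mΩ
  haveI := A.prob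
  have h1 : (low A).P = (fun (w : Fin n → Tor (d + 1)) i => tl (w i)) ∘ A.P := rfl
  have h2 : Measurable (fun (w : Fin n → Tor (d + 1)) i => (tl (w i) : Tor d)) :=
    measurable_pi_lambda _ fun i => tl_cont.measurable.comp (measurable_pi_apply i)
  rw [h1]
  change Measure.map _ A.μ = _
  rw [← Measure.map_map h2 A.measP, hA, Measure.pi_map_pi (fun _ => (tl_mp d).aemeasurable)]
  simp only [(tl_mp d).map_eq]

theorem low_errRan {d n : ℕ} (A : RandAlg (d + 1) n) (k : ℝ) :
    errRan (low A) k ≤ errRan A k := by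
  unfold errRan
  refine iSup₂_le fun f hf => ?_
  have h1 := le_iSup₂ (f := fun (g : Tor (d + 1) → ℝ) (_ : g ∈ ball (d + 1) k) =>
    @upperInt A.Ω A.mΩ A.μ
      (fun o => ENNReal.ofReal |(∫ x, g x) - A.φ o (fun i => g (A.P o i))|))
    (fun x => f (tl x)) (lift_ball hf)
  simp only [lift_int hf.1] at h1
  exact h1

theorem low_errUnif {d n : ℕ} (A : RandAlg (d + 1) n) (k : ℝ) :
    (low A).errUnif k ≤ A.errUnif k := by
  letI := A.mΩ
  have h : (low A).wce k ≤ A.wce k := by
    intro ω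
    unfold RandAlg.wce
    refine iSup₂_le fun f hf => ?_
    have h1 := le_iSup₂ (f := fun (g : Tor (d + 1) → ℝ) (_ : g ∈ ball (d + 1) k) =>
      ENNReal.ofReal |(∫ x, g x) - A.φ ω (fun i => g (A.P ω i))|)
      (fun x => f (tl x)) (lift_ball hf)
    simp only [lift_int hf.1] at h1
    exact h1
  unfold RandAlg.errUnif upperInt
  refine le_iInf₂ fun g hg => le_iInf fun hF => ?_
  exact (iInf₂_le g hg).trans (iInf_le _ (h.trans hF))

theorem ranIid_succ (d : ℕ) (k : ℝ) (n : ℕ) : ranIid d k n ≤ ranIid (d + 1) k n := by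
  refine le_iInf₂ fun A hA => ?_
  exact (iInf₂_le (low A) (low_iid A hA)).trans (low_errRan A k)

theorem eIid_succ (d : ℕ) (k : ℝ) (n : ℕ) : eIid d k n ≤ eIid (d + 1) k n := by
  refine le_iInf₂ fun A hA => ?_
  exact (iInf₂_le (low A) (low_iid A hA)).trans (low_errUnif A k)

theorem ranIid_dim (k : ℝ) (n : ℕ) : Monotone fun d => ranIid d k n :=
  monotone_nat_of_le_succ fun d => ranIid_succ d k n

theorem eIid_dim (k : ℝ) (n : ℕ) : Monotone fun d => eIid d k n :=
  monotone_nat_of_le_succ fun d => eIid_succ d k n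

end

end Pool.Agent.H5.RN
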