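import Pool.Graph.R_seed8.W691.Ran.Final
import Pool.Agent.H5.RN.Gen
import Pool.Agent.H5.RN.Anti
import Pool.Agent.H5.RN.Choose

/-!
Monte Carlo error: the loss of i.i.d. points for every large number of points.
-/

set_option autoImplicit false

namespace Pool.Agent.H5.RN

open MeasureTheory Filter Topology Pool.Agent.Helper150.Iid Pool.Agent.W691.Ran
open scoped ENNReal

noncomputable section

/-- The Monte Carlo error of the scrambled nets, for every number of points. -/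
theorem ranOpt_le_all (k : ℝ) (hk : 1 / 2 < k) (hk1 : k < 1) : ∃ C : ℝ, 0 < C ∧ ∀ n : ℕ, 0 < n →
    ranOpt 2 k n ≤ ENNReal.ofReal (Real.sqrt (C * (n : ℝ) ^ (-(1 + 2 * k)))) := by
  obtain ⟨C, hC, H⟩ := ranOpt_le k hk hk1
  refine ⟨C * 2 ^ (1 + 2 * k), by positivity, fun n hn => ?_⟩
  have h1 : 2 ^ Nat.log 2 n ≤ n := Nat.pow_log_le_self 2 hn.ne'
  have h2 : n < 2 ^ (Nat.log 2 n + 1) := Nat.lt_pow_succ_log_self (by norm_num) n
  obtain ⟨m, hm⟩ : ∃ m : ℕ, m = Nat.log 2 n := ⟨_, rfl⟩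
  rw [← hm] at h1 h2
  refine (ranOpt_anti 2 k h1).trans ((H m).trans (ENNReal.ofReal_le_ofReal
    (Real.sqrt_le_sqrt ?_)))
  have hnR : (0 : ℝ) < n := by exact_mod_cast hn
  have h3 : (n : ℝ) / 2 ≤ (2 : ℝ) ^ m := by
    have h4 : (n : ℝ) < 2 ^ (m + 1) := by exact_mod_cast h2
    rw [pow_succ] at h4
    linarith
  have h5 : ((2 : ℝ) ^ m) ^ (-(1 + 2 * k)) ≤ ((n : ℝ) / 2) ^ (-(1 + 2 * k)) :=
    Real.rpow_le_rpow_of_nonpos (by positivity) h3 (by linarith)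
  have h6 : ((n : ℝ) / 2) ^ (-(1 + 2 * k)) = 2 ^ (1 + 2 * k) * (n : ℝ) ^ (-(1 + 2 * k)) := by
    rw [Real.div_rpow hnR.le (by norm_num), Real.rpow_neg (by norm_num : (0 : ℝ) ≤ 2)]
    field_simp
  calc C * ((2 : ℝ) ^ m) ^ (-(1 + 2 * k)) ≤ C * (2 ^ (1 + 2 * k) * (n : ℝ) ^ (-(1 + 2 * k))) := by
        rw [← h6]
        exact mul_le_mul_of_nonneg_left h5 hC.le
    _ = _ := by ring

/-- Lower bound for the Monte Carlo error of `n` i.i.d. points, for every large `n`. -/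
theorem ran_low (k : ℝ) (hk : 1 / 2 < k) (hk1 : k < 1) (θ : ℝ) (hθ : θ < k) (C4 : ℝ)
    (hC4 : 0 < C4) : ∀ᶠ n : ℕ in atTop,
    ENNReal.ofReal ((Real.log n) ^ θ * Real.sqrt (C4 * (n : ℝ) ^ (-(1 + 2 * k)))) <
      ranIid 2 k n := by
  obtain ⟨θ', hθ'⟩ : ∃ θ' : ℝ, θ' = max θ 0 := ⟨_, rfl⟩
  have h0 : 0 ≤ θ' := by rw [hθ']; exact le_max_right _ _
  have h1 : θ ≤ θ' := by rw [hθ']; exact le_max_left _ _
  have h2 : θ' < k := by rw [hθ']; exact max_lt hθ (by linarith)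
  obtain ⟨b0, hb0⟩ := exists_nat_ge ((2 * θ' + 2 * k + 3) / (2 * k - 2 * θ'))
  obtain ⟨b, hb⟩ : ∃ b : ℕ, b = b0 + 2 := ⟨_, rfl⟩
  have hb2 : 2 ≤ b := by omega
  have hδ : ((b + 1 : ℕ) : ℝ) * (2 * θ') + ((b + 1 : ℕ) : ℝ) + 1 ≤
      (1 + 2 * k) * ((b - 1 : ℕ) : ℝ) := by
    have h3 : 2 * θ' + 2 * k + 3 ≤ b0 * (2 * k - 2 * θ') := by
      rwa [div_le_iff₀ (by linarith)] at hb0
    have h4 : ((b - 1 : ℕ) : ℝ) = b0 + 1 := by
      rw [hb]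
      have : b0 + 2 - 1 = b0 + 1 := by omega
      rw [this]
      push_cast
      ring
    have h5 : ((b + 1 : ℕ) : ℝ) = b0 + 3 := by rw [hb]; push_cast; ring
    rw [h4, h5]
    nlinarith
  obtain ⟨c, x₀, hc, H⟩ := ran_gen Pool.Agent.W12.RN.grid
    Pool.Agent.W347.RN.Quant.quant (Pool.Agent.W991.RN.avg Pool.Agent.W347.RN.Tent.tent) k hk hk1
    b hb2 2 (by norm_num)
  filter_upwards [params b hb2 (6 * b + 2) (by omega) (max x₀ (C4 / c ^ 2 + 1))] with n hn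
  obtain ⟨x, μ, Q, R, n', hxx, hx2, hL, hn0, hμ1, hμ2, hQ, hR1, hR2, hn', hlog, hnn', hN1⟩ := hn
  have hx0 : 0 < x := by linarith
  have hx1 : 1 ≤ x := by linarith
  have hxx1 : x₀ ≤ x := (le_max_left _ _).trans hxx
  have hxx2 : C4 / c ^ 2 + 1 ≤ x := (le_max_right _ _).trans hxx
  have hpow : ∀ m : ℕ, 1 ≤ x ^ m := fun m => one_le_pow₀ hx1
  have hlow := H x μ Q R n' hxx1 hμ1 hμ2 hQ hR1 hR2 hn' hlog
  have hlow2 : _ ≤ ranIid 2 k n := hlow.trans (ranIid_anti 2 k hnn')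
  have hnR : (0 : ℝ) < n := by exact_mod_cast hn0
  have hlog1 : 1 ≤ Real.log n := by rw [hL]; exact hpow _
  have hlog0 : 0 < Real.log n := by linarith
  obtain ⟨N, hN⟩ : ∃ N : ℝ, N = (Q : ℝ) ^ (R + 1) := ⟨_, rfl⟩
  rw [← hN] at hlow2 hN1
  have hQ1 : (1 : ℝ) ≤ Q := (hpow _).trans hQ
  have hNpos : 0 < N := by rw [hN]; positivity
  obtain ⟨N1, hN1'⟩ : ∃ N1 : ℝ, N1 = n / x ^ (b - 1) := ⟨_, rfl⟩
  have hNN : N ≤ N1 := by
    rw [hN1', le_div_iff₀ (by positivity), mul_comm]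
    exact hN1
  have hN1pos : 0 < N1 := by linarith
  -- the powers
  have e1 : ((Real.log n) ^ θ) ^ 2 ≤ x ^ (((b + 1 : ℕ) : ℝ) * (2 * θ')) := by
    calc ((Real.log n) ^ θ) ^ 2 ≤ ((Real.log n) ^ θ') ^ 2 :=
          pow_le_pow_left₀ (Real.rpow_nonneg hlog0.le _)
            (Real.rpow_le_rpow_of_exponent_le hlog1 h1) 2
      _ = (Real.log n) ^ (2 * θ') := by
          rw [← Real.rpow_natCast, ← Real.rpow_mul hlog0.le]
          congr 1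
          push_cast
          ring
      _ = (x ^ (b + 1)) ^ (2 * θ') := by rw [hL]
      _ = _ := by
          rw [Real.rpow_mul hx0.le, Real.rpow_natCast]
  have e2 : C4 * ((Real.log n) ^ θ) ^ 2 * x ^ (b + 1) <
      c ^ 2 * x ^ ((1 + 2 * k) * ((b - 1 : ℕ) : ℝ)) := by
    have h6 : C4 < c ^ 2 * x := by
      have h7 : C4 / c ^ 2 < x := by linarith
      rw [div_lt_iff₀ (by positivity)] at h7
      linarith
    have h7 : x ^ (((b + 1 : ℕ) : ℝ) * (2 * θ')) * x ^ (b + 1) * x ≤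
        x ^ ((1 + 2 * k) * ((b - 1 : ℕ) : ℝ)) := by
      have h8 : x ^ (((b + 1 : ℕ) : ℝ) * (2 * θ')) * x ^ (b + 1) * x =
          x ^ (((b + 1 : ℕ) : ℝ) * (2 * θ') + ((b + 1 : ℕ) : ℝ) + 1) := by
        rw [Real.rpow_add hx0, Real.rpow_add hx0, Real.rpow_one, Real.rpow_natCast]
      rw [h8]
      exact Real.rpow_le_rpow_of_exponent_le hx1 hδ
    have h8 : 0 < x ^ (((b + 1 : ℕ) : ℝ) * (2 * θ')) * x ^ (b + 1) := by
      have := Real.rpow_pos_of_pos hx0 (((b + 1 : ℕ) : ℝ) * (2 * θ'))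
      positivity
    calc C4 * ((Real.log n) ^ θ) ^ 2 * x ^ (b + 1)
        ≤ C4 * (x ^ (((b + 1 : ℕ) : ℝ) * (2 * θ'))) * x ^ (b + 1) := by
          refine mul_le_mul_of_nonneg_right ?_ (by positivity)
          exact mul_le_mul_of_nonneg_left e1 hC4.le
      _ = C4 * (x ^ (((b + 1 : ℕ) : ℝ) * (2 * θ')) * x ^ (b + 1)) := by ring
      _ < (c ^ 2 * x) * (x ^ (((b + 1 : ℕ) : ℝ) * (2 * θ')) * x ^ (b + 1)) :=
          mul_lt_mul_of_pos_right h6 h8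
      _ = c ^ 2 * (x ^ (((b + 1 : ℕ) : ℝ) * (2 * θ')) * x ^ (b + 1) * x) := by ring
      _ ≤ c ^ 2 * x ^ ((1 + 2 * k) * ((b - 1 : ℕ) : ℝ)) :=
          mul_le_mul_of_nonneg_left h7 (by positivity)
  obtain ⟨W, hW⟩ : ∃ W : ℝ, W = x ^ (b + 1) * N ^ (2 * k) * N := ⟨_, rfl⟩
  have hW0 : 0 < W := by
    rw [hW]
    have := Real.rpow_pos_of_pos hNpos (2 * k)
    positivity
  have hWle : W ≤ x ^ (b + 1) * (N1 ^ (2 * k) * N1) := by
    rw [hW, mul_assoc]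
    refine mul_le_mul_of_nonneg_left ?_ (by positivity)
    exact mul_le_mul (Real.rpow_le_rpow hNpos.le hNN (by linarith)) hNN hNpos.le
      (Real.rpow_nonneg hN1pos.le _)
  rw [← hW] at hlow2
  have e3 : (Real.log n) ^ θ * Real.sqrt (C4 * (n : ℝ) ^ (-(1 + 2 * k))) < c / Real.sqrt W := by
    have hl : 0 ≤ (Real.log n) ^ θ := Real.rpow_nonneg hlog0.le _
    have hr : 0 < c / Real.sqrt W := by
      have := Real.sqrt_pos.2 hW0
      positivity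
    refine (sq_lt_sq₀ (by positivity) hr.le).1 ?_
    have hnk : 0 < (n : ℝ) ^ (-(1 + 2 * k)) := Real.rpow_pos_of_pos hnR _
    rw [mul_pow, Real.sq_sqrt (by positivity), div_pow, Real.sq_sqrt hW0.le,
      lt_div_iff₀ hW0]
    have hA : 0 < x ^ ((1 + 2 * k) * ((b - 1 : ℕ) : ℝ)) := Real.rpow_pos_of_pos hx0 _
    have hnp : (n : ℝ) ^ (-(1 + 2 * k)) * (N1 ^ (2 * k) * N1) =
        (x ^ ((1 + 2 * k) * ((b - 1 : ℕ) : ℝ)))⁻¹ := by
      have a1 : N1 ^ (2 * k) * N1 = N1 ^ (1 + 2 * k) := by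
        rw [add_comm, Real.rpow_add hN1pos, Real.rpow_one]
      have a2 : (x ^ (b - 1)) ^ (1 + 2 * k) = x ^ ((1 + 2 * k) * ((b - 1 : ℕ) : ℝ)) := by
        rw [mul_comm (1 + 2 * k), Real.rpow_mul hx0.le, Real.rpow_natCast]
      have a3 : 0 < (n : ℝ) ^ (1 + 2 * k) := Real.rpow_pos_of_pos hnR _
      rw [a1, hN1', Real.div_rpow hnR.le (by positivity), a2, Real.rpow_neg hnR.le]
      field_simp
    calc ((Real.log n) ^ θ) ^ 2 * (C4 * (n : ℝ) ^ (-(1 + 2 * k))) * W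
        ≤ ((Real.log n) ^ θ) ^ 2 * (C4 * (n : ℝ) ^ (-(1 + 2 * k))) *
          (x ^ (b + 1) * (N1 ^ (2 * k) * N1)) :=
          mul_le_mul_of_nonneg_left hWle (by positivity)
      _ = (C4 * ((Real.log n) ^ θ) ^ 2 * x ^ (b + 1)) *
          ((n : ℝ) ^ (-(1 + 2 * k)) * (N1 ^ (2 * k) * N1)) := by ring
      _ = (C4 * ((Real.log n) ^ θ) ^ 2 * x ^ (b + 1)) /
          x ^ ((1 + 2 * k) * ((b - 1 : ℕ) : ℝ)) := by rw [hnp, ← div_eq_mul_inv]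
      _ < c ^ 2 := by
          rw [div_lt_iff₀ hA]
          exact e2
  refine lt_of_lt_of_le ?_ hlow2
  refine (ENNReal.ofReal_lt_ofReal_iff ?_).2 e3
  have := Real.sqrt_pos.2 hW0
  positivity

/-- Monte Carlo error: i.i.d. points lose the factor `(log n)^θ` for every large `n`. -/
theorem ran_all (k : ℝ) (hk : 1 / 2 < k) (hk1 : k < 1) (θ : ℝ) (hθ : θ < k) :
    ∀ᶠ n : ℕ in atTop, ENNReal.ofReal ((Real.log n) ^ θ) * ranOpt 2 k n < ranIid 2 k n := by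
  obtain ⟨C4, hC4, HC4⟩ := ranOpt_le_all k hk hk1
  filter_upwards [ran_low k hk hk1 θ hθ C4 hC4, eventually_ge_atTop 1] with n hn hn1
  have hn1R : (1 : ℝ) ≤ n := by exact_mod_cast hn1
  refine lt_of_le_of_lt ?_ hn
  rw [ENNReal.ofReal_mul (Real.rpow_nonneg (Real.log_nonneg hn1R) _)]
  exact mul_le_mul' le_rfl (HC4 n hn1)

/-- The Monte Carlo error of `n` i.i.d. points is at least `n^{-(k+1/2)} (log n)^θ`, `θ < k`. -/
theorem ran_rate (k : ℝ) (hk : 1 / 2 < k) (hk1 : k < 1) (θ : ℝ) (hθ : θ < k) :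
    ∀ᶠ n : ℕ in atTop,
      ENNReal.ofReal ((n : ℝ) ^ (-(k + 1 / 2)) * (Real.log n) ^ θ) ≤ ranIid 2 k n := by
  filter_upwards [ran_low k hk hk1 θ hθ 1 one_pos] with n hn
  refine le_trans (le_of_eq ?_) hn.le
  congr 1
  have hn0 : (0 : ℝ) ≤ n := Nat.cast_nonneg n
  rw [one_mul, Real.sqrt_eq_rpow, ← Real.rpow_mul hn0, mul_comm]
  congr 2
  ring

/-- The optimal Monte Carlo error with `n` points is at most `C n^{-(k+1/2)}`. -/
theorem ranOpt_rate (k : ℝ) (hk : 1 / 2 < k) (hk1 : k < 1) : ∃ C : ℝ, 0 < C ∧ ∀ n : ℕ, 0 < n →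
    ranOpt 2 k n ≤ ENNReal.ofReal (C * (n : ℝ) ^ (-(k + 1 / 2))) := by
  obtain ⟨C4, hC4, HC4⟩ := ranOpt_le_all k hk hk1
  refine ⟨Real.sqrt C4, Real.sqrt_pos.2 hC4, fun n hn => (HC4 n hn).trans (le_of_eq ?_)⟩
  congr 1
  have hn0 : (0 : ℝ) ≤ n := Nat.cast_nonneg n
  rw [Real.sqrt_mul hC4.le, Real.sqrt_eq_rpow ((n : ℝ) ^ (-(1 + 2 * k))), ← Real.rpow_mul hn0]
  congr 2
  ring

end

end Pool.Agent.H5.RN
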