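import Pool.Graph.R_seed8.Helper150.Iid.Main
import Pool.Agent.H5.RN.Gen
import Pool.Agent.H5.RN.Anti
import Pool.Agent.H5.RN.Choose

/-!
Uniform error: the loss of i.i.d. points for every large number of points.
-/

set_option autoImplicit false

namespace Pool.Agent.H5.RN

open MeasureTheory Filter Topology Pool.Agent.Helper150.Iid
open scoped ENNReal

noncomputable section

theorem unif_gen (k : ℝ) (hk : 1 / 2 < k) (k0 : ℕ) (hk0' : k ≤ k0) (b : ℕ) (hb : 2 ≤ b)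
    (s : ℕ) (hs : s = 3 * b * k0 + b + 3) (cL : ℝ) (hcL1 : 1 ≤ cL) :
    ∃ (c x₀ : ℝ), 0 < c ∧ ∀ (x : ℝ) (μ Q R n : ℕ), x₀ ≤ x →
      x ^ (b - 1) ≤ μ → (μ : ℝ) ≤ 3 * x ^ (b - 1) → x ^ s ≤ Q →
      x ^ b ≤ R → (R : ℝ) ≤ x ^ (b + 1) → n = μ * Q ^ (R + 1) →
      Real.log n ≤ cL * x ^ (b + 1) →
      ENNReal.ofReal (c * ((Q : ℝ) ^ (R + 1)) ^ (-k)) ≤ eIid 2 k n := by
  have hk0 : 0 ≤ k := by linarith
  obtain ⟨κ, C, hκ0, hκ1, hC, H⟩ := lower_param k hk0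
  obtain ⟨cΛ, hcΛ⟩ : ∃ cΛ : ℝ, cΛ = 2 * cL + 4 * b + 3 := ⟨_, rfl⟩
  have hb0 : (0 : ℝ) ≤ b := Nat.cast_nonneg _
  have hcΛ1 : 1 ≤ cΛ := by rw [hcΛ]; linarith
  obtain ⟨C3, hC3⟩ : ∃ C3 : ℝ, C3 = 3 * (1 + C + C * (2 + C) * cΛ * 6 ^ (2 * k0)) := ⟨_, rfl⟩
  have hC3p : 0 < C3 := by rw [hC3]; positivity
  have hev : ∀ᶠ x : ℝ in atTop, 32 ≤ x ∧ 8 * cΛ ≤ x ∧ cL + 1 ≤ x ∧ 2 * C * (2 + C) ≤ x ∧
      2 * x ^ (b + 1) * Real.exp (-(1 * x)) ≤ 1 / 6 ∧
      2 * x ^ (2 * s) * Real.exp (-(κ / 3072 * x)) ≤ 1 / 6 := by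
    filter_upwards [eventually_ge_atTop 32, eventually_ge_atTop (8 * cΛ),
      eventually_ge_atTop (cL + 1), eventually_ge_atTop (2 * C * (2 + C)),
      ev_exp' (b + 1) 1 one_pos 2 (1 / 6) (by norm_num),
      ev_exp' (2 * s) (κ / 3072) (by positivity) 2 (1 / 6) (by norm_num)] with x e1 e2 e3 e4 e5 e6
    exact ⟨e1, e2, e3, e4, e5, e6⟩
  obtain ⟨x₀, hx₀⟩ := eventually_atTop.1 hev
  refine ⟨1 / (4 * Real.sqrt C3), x₀, by positivity, ?_⟩
  intro x μ Q R n hx hμ1 hμ2 hQ hR1 hR2 hn hlog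
  obtain ⟨e1, e2, e3, e4, e5, e6⟩ := hx₀ x hx
  have hX1 : 1 ≤ x := by linarith
  have hX0 : 0 < x := by linarith
  have hpowX : ∀ m : ℕ, 1 ≤ x ^ m := fun m => one_le_pow₀ hX1
  have hQX : (1 : ℝ) ≤ Q := (hpowX s).trans hQ
  have hμX : (1 : ℝ) ≤ μ := (hpowX (b - 1)).trans hμ1
  have hQpos : 0 < Q := by exact_mod_cast (lt_of_lt_of_le one_pos hQX)
  have hμpos : 0 < μ := by exact_mod_cast (lt_of_lt_of_le one_pos hμX)
  have hRX : (1 : ℝ) ≤ R := (hpowX b).trans hR1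
  have hRpos : 1 ≤ R := by exact_mod_cast hRX
  have hnpos : 0 < n := by rw [hn]; positivity
  have hnR : (0:ℝ) < n := by exact_mod_cast hnpos
  obtain ⟨N, hN⟩ : ∃ N : ℝ, N = (Q : ℝ) ^ (R + 1) := ⟨_, rfl⟩
  have hN1' : (1 : ℝ) ≤ N := by rw [hN]; exact one_le_pow₀ hQX
  have hNR : (0 : ℝ) < N := by linarith
  have hnN : (n : ℝ) = μ * N := by rw [hn, hN]; push_cast; ring
  -- size of Λ
  have hY1 : 1 ≤ (n : ℝ) * x ^ (2 * b) := by
    have h1 : (1 : ℝ) ≤ n := by exact_mod_cast hnpos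
    exact one_le_mul_of_one_le_of_one_le h1 (hpowX _)
  obtain ⟨Λ', hΛ1, hΛ2⟩ := exists_nat_pow_near hY1 (by norm_num : (1 : ℝ) < 2)
  obtain ⟨Λ, hΛ⟩ : ∃ Λ : ℕ, Λ = Λ' + 1 := ⟨_, rfl⟩
  rw [← hΛ] at hΛ2
  have h2ΛX : (n : ℝ) * x ^ (2 * b) ≤ (2:ℝ) ^ Λ := hΛ2.le
  have h2ΛY : (2:ℝ) ^ Λ ≤ 2 * (n * x ^ (2 * b)) := by
    rw [hΛ, pow_succ]
    linarith
  have hxb : x ≤ x ^ (b + 1) := by
    calc x = x ^ 1 := (pow_one x).symm
      _ ≤ x ^ (b + 1) := pow_le_pow_right₀ hX1 (by omega)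
  have hΛle : (Λ : ℝ) + 1 ≤ cΛ * x ^ (b + 1) := by
    have h1 : (Λ : ℝ) * Real.log 2 ≤ Real.log (2 * (n * x ^ (2 * b))) := by
      rw [← Real.log_pow]
      exact Real.log_le_log (by positivity) h2ΛY
    have h2 : Real.log (2 * (n * x ^ (2 * b))) =
        Real.log 2 + (Real.log n + 2 * b * Real.log x) := by
      rw [Real.log_mul (by norm_num) (by positivity), Real.log_mul hnR.ne' (by positivity),
        Real.log_pow]
      push_cast
      ring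
    have h3 : Real.log x ≤ x := (Real.log_le_sub_one_of_pos hX0).trans (by linarith)
    have h4 : 2 * b * Real.log x ≤ 2 * b * x ^ (b + 1) :=
      mul_le_mul_of_nonneg_left (h3.trans hxb) (by positivity)
    have h5 : 1 / 2 ≤ Real.log 2 := by
      have := Real.log_two_gt_d9
      linarith
    have h6 : Real.log 2 ≤ 1 := by
      have := Real.log_two_lt_d9
      linarith
    have h7 : (Λ : ℝ) * (1 / 2) ≤ (Λ : ℝ) * Real.log 2 :=
      mul_le_mul_of_nonneg_left h5 (Nat.cast_nonneg _)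
    have h8 := hpowX (b + 1)
    rw [hcΛ]
    nlinarith
  -- the conditions
  have hs1 : 1 ≤ s := by omega
  have c0 : 32 ≤ Q := by
    have : (32:ℝ) ≤ Q := by
      calc (32:ℝ) ≤ x := e1
        _ = x ^ 1 := by ring
        _ ≤ x ^ s := pow_le_pow_right₀ hX1 hs1
        _ ≤ Q := hQ
    exact_mod_cast this
  have c1 : 8 * n * (Λ + 1) ≤ 2 ^ Λ := by
    have h1 : (8:ℝ) * n * (Λ + 1) ≤ (2:ℝ) ^ Λ := by
      refine le_trans ?_ h2ΛX
      have h2 : 8 * ((Λ:ℝ) + 1) ≤ x ^ (2 * b) := by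
        calc 8 * ((Λ:ℝ) + 1) ≤ 8 * (cΛ * x ^ (b + 1)) := by linarith
          _ = (8 * cΛ) * x ^ (b + 1) := by ring
          _ ≤ x * x ^ (b + 1) := mul_le_mul_of_nonneg_right e2 (by positivity)
          _ = x ^ (b + 2) := by ring
          _ ≤ x ^ (2 * b) := pow_le_pow_right₀ hX1 (by omega)
      calc (8:ℝ) * n * (Λ + 1) = n * (8 * ((Λ:ℝ) + 1)) := by ring
        _ ≤ n * x ^ (2 * b) := mul_le_mul_of_nonneg_left h2 hnR.le
    exact_mod_cast h1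
  have c2 : 2 * (R:ℝ) * (Q : ℝ) ^ R * Real.exp (-(μ * Q)) ≤ 1 / 6 := by
    have h1 : (Q : ℝ) ^ R ≤ Real.exp (cL * x ^ (b + 1)) := by
      calc (Q : ℝ) ^ R ≤ (Q : ℝ) ^ (R + 1) := pow_le_pow_right₀ hQX (by omega)
        _ = 1 * (Q : ℝ) ^ (R + 1) := (one_mul _).symm
        _ ≤ μ * (Q : ℝ) ^ (R + 1) := mul_le_mul_of_nonneg_right hμX (by positivity)
        _ = n := by rw [hn]; push_cast; ring
        _ = Real.exp (Real.log n) := (Real.exp_log hnR).symm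
        _ ≤ _ := Real.exp_le_exp.2 hlog
    have h3 : x ^ (b + 2) ≤ (μ:ℝ) * Q := by
      calc x ^ (b + 2) ≤ x ^ ((b - 1) + s) := pow_le_pow_right₀ hX1 (by omega)
        _ = x ^ (b - 1) * x ^ s := pow_add _ _ _
        _ ≤ μ * Q := mul_le_mul hμ1 hQ (by positivity) (by positivity)
    have h4 : cL * x ^ (b + 1) - μ * Q ≤ -(1 * x) := by
      have h5 : cL * x ^ (b + 1) - x ^ (b + 2) = -((x - cL) * x ^ (b + 1)) := by ring
      have h7 : x ≤ (x - cL) * x ^ (b + 1) := by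
        calc x ≤ x ^ (b + 1) := hxb
          _ = 1 * x ^ (b + 1) := by ring
          _ ≤ (x - cL) * x ^ (b + 1) :=
            mul_le_mul_of_nonneg_right (by linarith) (by positivity)
      linarith
    calc 2 * (R:ℝ) * (Q : ℝ) ^ R * Real.exp (-(μ * Q))
        ≤ 2 * x ^ (b + 1) * Real.exp (cL * x ^ (b + 1)) * Real.exp (-(μ * Q)) := by
          refine mul_le_mul_of_nonneg_right ?_ (Real.exp_pos _).le
          exact mul_le_mul (by linarith) h1 (by positivity) (by positivity)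
      _ = 2 * x ^ (b + 1) * Real.exp (cL * x ^ (b + 1) - μ * Q) := by
          rw [mul_assoc, ← Real.exp_add]
          ring_nf
      _ ≤ 2 * x ^ (b + 1) * Real.exp (-(1 * x)) := by
          refine mul_le_mul_of_nonneg_left (Real.exp_le_exp.2 h4) (by positivity)
      _ ≤ 1 / 6 := e5
  obtain ⟨τ, hτ⟩ : ∃ τ : ℝ, τ = n / x ^ (2 * s) := ⟨_, rfl⟩
  have hτ0 : 0 < τ := by rw [hτ]; positivity
  have hμ0 : (0 : ℝ) < μ := by linarith
  have c3 : (1 - κ / (1024 * μ)) ^ R * (2 * n) / τ ≤ 1 / 6 := by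
    have h1 : (1 - κ / (1024 * μ)) ^ R ≤ Real.exp (-(κ / 3072 * x)) := by
      have h2 : (1 - κ / (1024 * μ)) ≤ Real.exp (-(κ / (1024 * μ))) := by
        have := Real.add_one_le_exp (-(κ / (1024 * μ)))
        linarith
      have h3 : 0 ≤ 1 - κ / (1024 * μ) := by
        have : κ / (1024 * μ) ≤ 1 := by
          rw [div_le_one (by positivity)]
          nlinarith
        linarith
      calc (1 - κ / (1024 * μ)) ^ R ≤ (Real.exp (-(κ / (1024 * μ)))) ^ R :=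
            pow_le_pow_left₀ h3 h2 _
        _ = Real.exp (-(κ / 1024 * (R / μ))) := by
            rw [← Real.exp_nat_mul]
            congr 1
            field_simp
        _ ≤ Real.exp (-(κ / 3072 * x)) := by
            refine Real.exp_le_exp.2 ?_
            have h4 : x / 3 ≤ R / μ := by
              rw [div_le_div_iff₀ (by norm_num) hμ0]
              calc x * μ ≤ x * (3 * x ^ (b - 1)) := mul_le_mul_of_nonneg_left hμ2 hX0.le
                _ = 3 * x ^ ((b - 1) + 1) := by ring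
                _ = 3 * x ^ b := by rw [Nat.sub_add_cancel (by omega)]
                _ ≤ R * 3 := by linarith
            have h5 : κ / 1024 * (x / 3) ≤ κ / 1024 * (R / μ) :=
              mul_le_mul_of_nonneg_left h4 (by positivity)
            have h6 : κ / 1024 * (x / 3) = κ / 3072 * x := by ring
            linarith
    have h5 : (1 - κ / (1024 * μ)) ^ R * (2 * n) / τ =
        2 * x ^ (2 * s) * (1 - κ / (1024 * μ)) ^ R := by
      rw [hτ]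
      field_simp
    rw [h5]
    calc 2 * x ^ (2 * s) * (1 - κ / (1024 * μ)) ^ R ≤
        2 * x ^ (2 * s) * Real.exp (-(κ / 3072 * x)) :=
          mul_le_mul_of_nonneg_left h1 (by positivity)
      _ ≤ 1 / 6 := e6
  have c4 : (3 * n / 2 ^ (Λ + 1) : ℝ) ≤ 1 / 6 := by
    rw [pow_succ]
    have h1 : (9:ℝ) ≤ x ^ (2 * b) := by
      calc (9:ℝ) ≤ x := by linarith
        _ = x ^ 1 := by ring
        _ ≤ x ^ (2 * b) := pow_le_pow_right₀ hX1 (by omega)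
    rw [div_le_iff₀ (by positivity)]
    nlinarith
  obtain ⟨S, hS⟩ : ∃ S : ℝ, S = (2 + C) * (n * (x ^ (2 * (b + 1)) / x ^ (2 * s))) := ⟨_, rfl⟩
  have c5 : 2 * τ + C * (R / Q) ^ 2 * n ≤ S := by
    rw [hS, hτ]
    have h1 : (n:ℝ) / x ^ (2 * s) ≤ n * (x ^ (2 * (b + 1)) / x ^ (2 * s)) := by
      rw [← mul_div_assoc]
      refine div_le_div_of_nonneg_right ?_ (by positivity)
      calc (n:ℝ) = n * 1 := by ring
        _ ≤ n * x ^ (2 * (b + 1)) := mul_le_mul_of_nonneg_left (hpowX _) hnR.le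
    have h2 : C * ((R : ℝ) / Q) ^ 2 * n ≤ C * (n * (x ^ (2 * (b + 1)) / x ^ (2 * s))) := by
      have h3 : ((R : ℝ) / Q) ^ 2 ≤ x ^ (2 * (b + 1)) / x ^ (2 * s) := by
        have h4 : (R : ℝ) / Q ≤ x ^ (b + 1) / x ^ s :=
          div_le_div₀ (by positivity) hR2 (by positivity) hQ
        calc ((R : ℝ) / Q) ^ 2 ≤ (x ^ (b + 1) / x ^ s) ^ 2 :=
              pow_le_pow_left₀ (by positivity) h4 2
          _ = x ^ (2 * (b + 1)) / x ^ (2 * s) := by
              rw [div_pow, ← pow_mul, ← pow_mul, mul_comm (b + 1) 2, mul_comm s 2]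
      calc C * ((R : ℝ) / Q) ^ 2 * n = C * n * ((R : ℝ) / Q) ^ 2 := by ring
        _ ≤ C * n * (x ^ (2 * (b + 1)) / x ^ (2 * s)) :=
            mul_le_mul_of_nonneg_left h3 (by positivity)
        _ = _ := by ring
    linarith
  have hS0 : 0 ≤ S := by rw [hS]; positivity
  have hXs : x ^ (2 * (b + 1)) / x ^ (2 * s) ≤ 1 := by
    rw [div_le_one (by positivity)]
    exact pow_le_pow_right₀ hX1 (by omega)
  have c6 : C / 2 ^ Λ * Real.sqrt (n * S) ≤ 1 / 2 := by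
    have h1 : Real.sqrt (n * S) ≤ (2 + C) * n := by
      rw [Real.sqrt_le_left (by positivity)]
      have h2 : S ≤ (2 + C) * n := by
        rw [hS]
        refine mul_le_mul_of_nonneg_left ?_ (by positivity)
        calc (n:ℝ) * (x ^ (2 * (b + 1)) / x ^ (2 * s)) ≤ n * 1 :=
              mul_le_mul_of_nonneg_left hXs hnR.le
          _ = n := by ring
      calc (n:ℝ) * S ≤ n * ((2 + C) * n) := mul_le_mul_of_nonneg_left h2 hnR.le
        _ = 1 * ((2 + C) * n ^ 2) := by ring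
        _ ≤ (2 + C) * ((2 + C) * n ^ 2) :=
            mul_le_mul_of_nonneg_right (by linarith) (by positivity)
        _ = ((2 + C) * n) ^ 2 := by ring
    have h2 : C / 2 ^ Λ ≤ C / (n * x ^ (2 * b)) :=
      div_le_div_of_nonneg_left hC (by positivity) h2ΛX
    calc C / 2 ^ Λ * Real.sqrt (n * S) ≤ C / (n * x ^ (2 * b)) * ((2 + C) * n) :=
          mul_le_mul h2 h1 (Real.sqrt_nonneg _) (by positivity)
      _ = C * (2 + C) / x ^ (2 * b) := by
          field_simp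
      _ ≤ 1 / 2 := by
          rw [div_le_iff₀ (by positivity)]
          have h3 : x ≤ x ^ (2 * b) := by
            calc x = x ^ 1 := by ring
              _ ≤ x ^ (2 * b) := pow_le_pow_right₀ hX1 (by omega)
          linarith
  -- the norm
  obtain ⟨E, hE⟩ : ∃ E : ℝ, E = Real.sqrt C3 * N ^ k := ⟨_, rfl⟩
  have hNk0 : 0 < N ^ k := Real.rpow_pos_of_pos hNR k
  have hE0 : 0 < E := by rw [hE]; positivity
  have hE2 : E ^ 2 = C3 * N ^ (2 * k) := by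
    rw [hE, mul_pow, Real.sq_sqrt hC3p.le]
    congr 1
    rw [← Real.rpow_natCast (N ^ k) 2, ← Real.rpow_mul hNR.le]
    congr 1
    push_cast
    ring
  obtain ⟨Y, hY⟩ : ∃ Y : ℝ, Y = 6 * x ^ (3 * b - 1) := ⟨_, rfl⟩
  have hY1 : 1 ≤ Y := by rw [hY]; have := hpowX (3 * b - 1); linarith
  have hY0 : 0 ≤ Y := by linarith
  have hnX : (n : ℝ) ≤ 3 * x ^ (b - 1) * N := by
    rw [hnN]
    exact mul_le_mul_of_nonneg_right hμ2 hNR.le
  have hP0 : 0 < N ^ (2 * k) := Real.rpow_pos_of_pos hNR _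
  have hP1 : 1 ≤ N ^ (2 * k) := Real.one_le_rpow hN1' (by linarith)
  have key : C * ((Λ : ℝ) + 1) * ((2 : ℝ) ^ Λ) ^ (2 * k) / (2 : ℝ) ^ Λ * S ≤
      C * (2 + C) * cΛ * 6 ^ (2 * k0) * N ^ (2 * k) := by
    have h2 : ((2 : ℝ) ^ Λ) ^ (2 * k) ≤ N ^ (2 * k) * Y ^ (2 * k0) := by
      have h3 : (2 : ℝ) ^ Λ ≤ N * Y := by
        refine h2ΛY.trans ?_
        rw [hY]
        calc 2 * ((n : ℝ) * x ^ (2 * b)) ≤ 2 * ((3 * x ^ (b - 1) * N) * x ^ (2 * b)) := by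
              gcongr
          _ = N * (6 * (x ^ (b - 1) * x ^ (2 * b))) := by ring
          _ = N * (6 * x ^ (3 * b - 1)) := by
              rw [← pow_add, show b - 1 + 2 * b = 3 * b - 1 by omega]
      calc ((2 : ℝ) ^ Λ) ^ (2 * k) ≤ (N * Y) ^ (2 * k) :=
            Real.rpow_le_rpow (by positivity) h3 (by linarith)
        _ = N ^ (2 * k) * Y ^ (2 * k) := by rw [Real.mul_rpow hNR.le hY0]
        _ ≤ N ^ (2 * k) * Y ^ (((2 * k0 : ℕ) : ℝ)) := by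
            refine mul_le_mul_of_nonneg_left ?_ hP0.le
            refine Real.rpow_le_rpow_of_exponent_le hY1 ?_
            push_cast
            linarith
        _ = N ^ (2 * k) * Y ^ (2 * k0) := by rw [Real.rpow_natCast]
    have hS2 : S / (2 : ℝ) ^ Λ ≤ (2 + C) * (x ^ 2 / x ^ (2 * s)) := by
      rw [div_le_iff₀ (by positivity), hS]
      calc (2 + C) * ((n : ℝ) * (x ^ (2 * (b + 1)) / x ^ (2 * s)))
          = (2 + C) * (x ^ 2 / x ^ (2 * s)) * (n * x ^ (2 * b)) := by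
            rw [show 2 * (b + 1) = 2 + 2 * b by ring, pow_add]
            ring
        _ ≤ (2 + C) * (x ^ 2 / x ^ (2 * s)) * 2 ^ Λ :=
            mul_le_mul_of_nonneg_left h2ΛX (by positivity)
    have hexp : x ^ (b + 1) * (x ^ (3 * b - 1)) ^ (2 * k0) * x ^ 2 ≤ x ^ (2 * s) := by
      rw [← pow_mul, ← pow_add, ← pow_add]
      refine pow_le_pow_right₀ hX1 ?_
      have h5 : (3 * b - 1) * (2 * k0) ≤ 3 * b * (2 * k0) := Nat.mul_le_mul_right _ (by omega)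
      have h6 : 3 * b * (2 * k0) = 2 * (3 * b * k0) := by ring
      omega
    calc C * ((Λ : ℝ) + 1) * ((2 : ℝ) ^ Λ) ^ (2 * k) / (2 : ℝ) ^ Λ * S
        = C * (((Λ : ℝ) + 1) * ((2 : ℝ) ^ Λ) ^ (2 * k) * (S / (2 : ℝ) ^ Λ)) := by ring
      _ ≤ C * ((cΛ * x ^ (b + 1)) * (N ^ (2 * k) * Y ^ (2 * k0)) *
          ((2 + C) * (x ^ 2 / x ^ (2 * s)))) := by
          refine mul_le_mul_of_nonneg_left ?_ hC
          refine mul_le_mul ?_ hS2 (by positivity) (by positivity)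
          exact mul_le_mul hΛle h2 (by positivity) (by positivity)
      _ = C * (2 + C) * cΛ * 6 ^ (2 * k0) * N ^ (2 * k) *
          ((x ^ (b + 1) * (x ^ (3 * b - 1)) ^ (2 * k0) * x ^ 2) / x ^ (2 * s)) := by
          rw [hY, mul_pow]
          ring
      _ ≤ C * (2 + C) * cΛ * 6 ^ (2 * k0) * N ^ (2 * k) * 1 := by
          refine mul_le_mul_of_nonneg_left ?_ (by positivity)
          rw [div_le_one (by positivity)]
          exact hexp
      _ = _ := by ring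
  have c7 : 3 * (1 + C * ((Q : ℝ) ^ (R + 1)) ^ (2 * k) + C * ((Λ : ℝ) + 1) *
      ((2 : ℝ) ^ Λ) ^ (2 * k) / (2 : ℝ) ^ Λ * S) ≤ E ^ 2 := by
    rw [← hN, hE2, hC3]
    have h5 : 3 * (1 + C + C * (2 + C) * cΛ * 6 ^ (2 * k0)) * N ^ (2 * k) =
        3 * (N ^ (2 * k) + C * N ^ (2 * k) + C * (2 + C) * cΛ * 6 ^ (2 * k0) * N ^ (2 * k)) := by
      ring
    rw [h5]
    linarith
  have hmain := H n Q hQpos R μ Λ τ c0 hμpos hτ0 hn c1 c2 c3 c4 S c5 c6 E hE0 c7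
  refine le_trans (le_of_eq ?_) hmain
  congr 1
  rw [← hN, hE, Real.rpow_neg hNR.le]
  field_simp

/-- Lower bound for the uniform error of `n` i.i.d. points, for every large `n`. -/
theorem unif_low (k : ℝ) (hk : 1 / 2 < k) (θ : ℝ) (hθ : θ < k) (C4 : ℝ) (hC4 : 0 < C4) :
    ∀ᶠ n : ℕ in atTop,
      ENNReal.ofReal ((Real.log n) ^ θ * (C4 * (n : ℝ) ^ (-k))) < eIid 2 k n := by
  obtain ⟨θ', hθ'⟩ : ∃ θ' : ℝ, θ' = max θ 0 := ⟨_, rfl⟩
  have h0 : 0 ≤ θ' := by rw [hθ']; exact le_max_right _ _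
  have h1 : θ ≤ θ' := by rw [hθ']; exact le_max_left _ _
  have h2 : θ' < k := by rw [hθ']; exact max_lt hθ (by linarith)
  obtain ⟨b0, hb0⟩ := exists_nat_ge ((3 * θ' + 1) / (k - θ'))
  obtain ⟨b, hb⟩ : ∃ b : ℕ, b = b0 + 2 := ⟨_, rfl⟩
  have hb2 : 2 ≤ b := by omega
  have hδ : (((b + 1 : ℕ) : ℝ) * θ') + 1 ≤ k * ((b - 1 : ℕ) : ℝ) := by
    have h3 : 3 * θ' + 1 ≤ b0 * (k - θ') := by
      rwa [div_le_iff₀ (by linarith)] at hb0
    have h4 : ((b - 1 : ℕ) : ℝ) = b0 + 1 := by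
      rw [hb]
      have : b0 + 2 - 1 = b0 + 1 := by omega
      rw [this]
      push_cast
      ring
    have h5 : ((b + 1 : ℕ) : ℝ) = b0 + 3 := by rw [hb]; push_cast; ring
    rw [h4, h5]
    nlinarith
  obtain ⟨k0, hk0'⟩ := exists_nat_ge k
  obtain ⟨s, hs⟩ : ∃ s : ℕ, s = 3 * b * k0 + b + 3 := ⟨_, rfl⟩
  obtain ⟨c, x₀, hc, H⟩ := unif_gen k hk k0 hk0' b hb2 s hs 2 (by norm_num)
  filter_upwards [params b hb2 s (by omega) (max x₀ (C4 / c + 1)), eventually_ge_atTop 2] with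
    n hn hn2
  obtain ⟨x, μ, Q, R, n', hxx, hx2, hL, hn0, hμ1, hμ2, hQ, hR1, hR2, hn', hlog, hnn', hN1⟩ := hn
  have hx0 : 0 < x := by linarith
  have hx1 : 1 ≤ x := by linarith
  have hxx1 : x₀ ≤ x := (le_max_left _ _).trans hxx
  have hxx2 : C4 / c + 1 ≤ x := (le_max_right _ _).trans hxx
  have hpow : ∀ m : ℕ, 1 ≤ x ^ m := fun m => one_le_pow₀ hx1
  have hlow := H x μ Q R n' hxx1 hμ1 hμ2 hQ hR1 hR2 hn' hlog
  have hlow2 : _ ≤ eIid 2 k n := hlow.trans (eIid_anti 2 k hnn')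
  have hnR : (0 : ℝ) < n := by exact_mod_cast hn0
  have hlog1 : 1 ≤ Real.log n := by rw [hL]; exact hpow _
  have hlog0 : 0 < Real.log n := by linarith
  obtain ⟨N, hN⟩ : ∃ N : ℝ, N = (Q : ℝ) ^ (R + 1) := ⟨_, rfl⟩
  rw [← hN] at hlow2 hN1
  have hQ1 : (1 : ℝ) ≤ Q := (hpow _).trans hQ
  have hNpos : 0 < N := by rw [hN]; positivity
  obtain ⟨N1, hN1'⟩ : ∃ N1 : ℝ, N1 = n / x ^ (b - 1) := ⟨_, rfl⟩
  have hNN : N ≤ N1 := by
    rw [hN1', le_div_iff₀ (by positivity), mul_comm]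
    exact hN1
  have hN1pos : 0 < N1 := by linarith
  -- the powers
  have e1 : (Real.log n) ^ θ ≤ x ^ (((b + 1 : ℕ) : ℝ) * θ') := by
    calc (Real.log n) ^ θ
        ≤ (Real.log n) ^ θ' := Real.rpow_le_rpow_of_exponent_le hlog1 h1
      _ = (x ^ (b + 1)) ^ θ' := by rw [hL]
      _ = _ := by
          rw [Real.rpow_mul hx0.le, Real.rpow_natCast]
  have e2 : C4 * ((Real.log n) ^ θ) < c * x ^ (k * ((b - 1 : ℕ) : ℝ)) := by
    have h6 : C4 < c * x := by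
      have h7 : C4 / c < x := by linarith
      rw [div_lt_iff₀ hc] at h7
      linarith
    have h7 : x ^ (((b + 1 : ℕ) : ℝ) * θ') * x ≤ x ^ (k * ((b - 1 : ℕ) : ℝ)) := by
      have h8 : x ^ (((b + 1 : ℕ) : ℝ) * θ') * x =
          x ^ ((((b + 1 : ℕ) : ℝ) * θ') + 1) := by
        rw [Real.rpow_add hx0, Real.rpow_one]
      rw [h8]
      exact Real.rpow_le_rpow_of_exponent_le hx1 hδ
    have h8 : 0 < x ^ (((b + 1 : ℕ) : ℝ) * θ') := Real.rpow_pos_of_pos hx0 _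
    calc C4 * ((Real.log n) ^ θ)
        ≤ C4 * x ^ (((b + 1 : ℕ) : ℝ) * θ') :=
          mul_le_mul_of_nonneg_left e1 hC4.le
      _ < (c * x) * x ^ (((b + 1 : ℕ) : ℝ) * θ') := mul_lt_mul_of_pos_right h6 h8
      _ = c * (x ^ (((b + 1 : ℕ) : ℝ) * θ') * x) := by ring
      _ ≤ c * x ^ (k * ((b - 1 : ℕ) : ℝ)) := mul_le_mul_of_nonneg_left h7 hc.le
  have e3 : (Real.log n) ^ θ * (C4 * (n : ℝ) ^ (-k)) < c * N ^ (-k) := by
    have h9 : (n : ℝ) ^ (-k) = (x ^ (k * ((b - 1 : ℕ) : ℝ)))⁻¹ * N1 ^ (-k) := by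
      have hn1 : (n : ℝ) = x ^ (b - 1) * N1 := by
        rw [hN1']
        field_simp
      rw [hn1, Real.mul_rpow (by positivity) hN1pos.le]
      congr 1
      rw [← Real.rpow_natCast x (b - 1), ← Real.rpow_mul hx0.le, ← Real.rpow_neg hx0.le]
      congr 1
      ring
    have h10 : 0 < x ^ (k * ((b - 1 : ℕ) : ℝ)) := Real.rpow_pos_of_pos hx0 _
    have h11 : 0 < N1 ^ (-k) := Real.rpow_pos_of_pos hN1pos _
    have h12 : N1 ^ (-k) ≤ N ^ (-k) :=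
      Real.rpow_le_rpow_of_nonpos hNpos hNN (by linarith)
    rw [h9]
    calc (Real.log n) ^ θ * (C4 * ((x ^ (k * ((b - 1 : ℕ) : ℝ)))⁻¹ * N1 ^ (-k)))
        = (C4 * ((Real.log n) ^ θ)) *
          ((x ^ (k * ((b - 1 : ℕ) : ℝ)))⁻¹ * N1 ^ (-k)) := by ring
      _ < (c * x ^ (k * ((b - 1 : ℕ) : ℝ))) *
          ((x ^ (k * ((b - 1 : ℕ) : ℝ)))⁻¹ * N1 ^ (-k)) :=
          mul_lt_mul_of_pos_right e2 (by positivity)
      _ = c * N1 ^ (-k) := by
          field_simp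
      _ ≤ c * N ^ (-k) := mul_le_mul_of_nonneg_left h12 hc.le
  refine lt_of_lt_of_le ?_ hlow2
  refine (ENNReal.ofReal_lt_ofReal_iff ?_).2 e3
  exact mul_pos hc (Real.rpow_pos_of_pos hNpos _)

/-- Uniform error: i.i.d. points lose the factor `(log n)^θ` for every large `n`. -/
theorem unif_all (k : ℝ) (hk : 1 / 2 < k) (θ : ℝ) (hθ : θ < k - 1 / 2) :
    ∀ᶠ n : ℕ in atTop, ENNReal.ofReal ((Real.log n) ^ θ) * eOpt 2 k n < eIid 2 k n := by
  obtain ⟨C4, hC4, HC4⟩ := Upper.eOpt_le k hk (Lat.lattice_sum k hk)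
  filter_upwards [unif_low k hk (θ + 1 / 2) (by linarith) C4 hC4, eventually_ge_atTop 2] with
    n hn hn2
  have hn2R : (2 : ℝ) ≤ n := by exact_mod_cast hn2
  have hl : 0 < Real.log n := Real.log_pos (by linarith)
  refine lt_of_le_of_lt ?_ hn
  have h1 : (Real.log n) ^ (θ + 1 / 2) * (C4 * (n : ℝ) ^ (-k)) =
      (Real.log n) ^ θ * (C4 * (n : ℝ) ^ (-k) * Real.sqrt (Real.log n)) := by
    rw [Real.rpow_add hl, Real.sqrt_eq_rpow]
    ring
  rw [h1, ENNReal.ofReal_mul (Real.rpow_nonneg hl.le _)]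
  exact mul_le_mul' le_rfl (HC4 n hn2)

/-- The uniform error of `n` i.i.d. points is at least `n^{-k} (log n)^θ`, `θ < k`. -/
theorem unif_rate (k : ℝ) (hk : 1 / 2 < k) (θ : ℝ) (hθ : θ < k) :
    ∀ᶠ n : ℕ in atTop,
      ENNReal.ofReal ((n : ℝ) ^ (-k) * (Real.log n) ^ θ) ≤ eIid 2 k n := by
  filter_upwards [unif_low k hk θ hθ 1 one_pos] with n hn
  refine le_trans (le_of_eq ?_) hn.le
  rw [one_mul, mul_comm]

end

end Pool.Agent.H5.RN
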